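import Pool.Agent.ER.Hard
import Pool.Agent.ER.GapSys
import Pool.Agent.ER.Rat

/-!
# Project LR: entrywise low-rank approximation for `p = 0` and `p = 1`

Definitions: the decision problems, the gates, the rows and columns of the matrices.
-/

set_option autoImplicit false

namespace Pool.Agent.Q230.LR

open Pool.Agent.NPC Pool.Agent.NPC.ER

/-! ### The decision problems -/

/-- The entry `(i, j)` of a matrix given as the list of its rows. -/
def ent (A : List (List ℚ)) (i j : ℕ) : ℚ := (A.getD i []).getD j 0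

/-- The number of columns. -/
def width (A : List (List ℚ)) : ℕ := (A.headD []).length

/-- The real matrix given by a list of rows. -/
noncomputable def mat (A : List (List ℚ)) : Matrix (Fin A.length) (Fin (width A)) ℝ :=
  fun i j => (ent A i j : ℝ)

/-- A valid input: a rational matrix `A`, a rank bound `k` and a positive rational `ε`. -/
def IsInput (x : List (List ℚ) × ℕ × ℚ) : Prop :=
  (∀ r ∈ x.1, r.length = width x.1) ∧ 0 < x.2.2

/-- The problem for `p = 0`: is there a real matrix `B` of rank at most `k` such that `A` and `B`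
differ in fewer than `ε` entries? -/
def LRA0 (x : List (List ℚ) × ℕ × ℚ) : Prop :=
  IsInput x ∧ ∃ B : Matrix (Fin x.1.length) (Fin (width x.1)) ℝ, B.rank ≤ x.2.1 ∧
    ((Finset.univ.filter fun p : Fin x.1.length × Fin (width x.1) =>
      mat x.1 p.1 p.2 ≠ B p.1 p.2).card : ℝ) < x.2.2

/-- The problem for `p = 1`: is there a real matrix `B` of rank at most `k` such that the sum of
the absolute values of the entries of `A - B` is less than `ε`? -/
def LRA1 (x : List (List ℚ) × ℕ × ℚ) : Prop :=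
  IsInput x ∧ ∃ B : Matrix (Fin x.1.length) (Fin (width x.1)) ℝ, B.rank ≤ x.2.1 ∧
    ∑ i, ∑ j, |mat x.1 i j - B i j| < x.2.2

/-! ### Matrices as tables, scalar products -/

/-- The `m × n` matrix with the entries `f i j`. -/
def tab (m n : ℕ) (f : ℕ → ℕ → ℚ) : List (List ℚ) :=
  (List.range m).map fun i => (List.range n).map fun j => f i j

/-- The scalar product. -/
def dot (u v : Fin 3 → ℝ) : ℝ := u 0 * v 0 + u 1 * v 1 + u 2 * v 2

/-! ### Gates -/

/-- A gate `(t, i, j, k)`: `k` is the output, `i, j` are the inputs. -/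
abbrev Gt := ℕ × ℕ × ℕ × ℕ

/-- The constants `γ`, `γ / 8` and `0`. -/
noncomputable def cv (γ : ℝ) (j : ℕ) : ℝ := if j = 8 then γ else if j = 1 then γ / 8 else 0

/-- The right-hand side of a gate: constant, mean, opposite, product. -/
noncomputable def op (γ : ℝ) (v : ℕ → ℝ) (g : Gt) : ℝ :=
  if g.1 = 0 then cv γ g.2.2.1
  else if g.1 = 1 then (v g.2.1 + v g.2.2.1) / 2
  else if g.1 = 2 then - v g.2.1
  else v g.2.1 * v g.2.2.1

/-- The gate is satisfied. -/
def Hld (γ : ℝ) (v : ℕ → ℝ) (g : Gt) : Prop := v g.2.2.2 = op γ v g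

/-- the new name of a variable of a system -/
def ri (S : List Con) (i : ℕ) : ℕ := (svars S).idxOf i

/-- The gates of a system for `p = 0` (`γ = 1`). The variable `(svars S).length` is `0`. -/
def gates0 (S : List Con) : List Gt :=
  (0, 0, 0, (svars S).length) :: S.zipIdx.flatMap fun p =>
    match p.1 with
    | ER.Con.one i => [(0, 0, 8, ri S i)]
    | ER.Con.add i j k => [(1, ri S i, ri S j, (svars S).length + 1 + p.2),
        (1, ri S k, (svars S).length, (svars S).length + 1 + p.2)]
    | ER.Con.mul i j k => [(3, ri S i, ri S j, ri S k)]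

/-- the number of the variables of `gates0` -/
def num0 (S : List Con) : ℕ := (svars S).length + 1 + S.length

/-- the number of squarings -/
def sqn (T : List Con) : ℕ := gapK T.length + T.length + 5

/-- the first position of the blocks -/
def bas (T : List Con) : ℕ := (svars T).length + 5 + sqn T

/-- The first gates for `p = 1`: `κ / 8`, `κ`, `0`, the powers `κ ^ 2 ^ (j + 1)`, the opposite of the
last power, `0`. -/
def pre (T : List Con) : List Gt :=
  [(0, 0, 1, (svars T).length), (0, 0, 8, (svars T).length + 1), (0, 0, 0, (svars T).length + 2)] ++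
  ((List.range (sqn T)).map fun j =>
    (3, if j = 0 then (svars T).length + 1 else (svars T).length + 2 + j,
      if j = 0 then (svars T).length + 1 else (svars T).length + 2 + j,
      (svars T).length + 3 + j)) ++
  [(2, (svars T).length + 2 + sqn T, 0, (svars T).length + 3 + sqn T),
    (0, 0, 0, (svars T).length + 4 + sqn T)]

/-- the two inputs of the comparison in the block of a constraint -/
def two (T : List Con) (c : Con) (q : ℕ) : List Gt :=
  match c with
  | ER.Con.one i => [(1, ri T i, (svars T).length + 2, q),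
      (1, (svars T).length, (svars T).length + 2, q + 1)]
  | ER.Con.add i j k => [(1, ri T i, ri T j, q), (1, ri T k, (svars T).length + 2, q + 1)]
  | ER.Con.mul i j k => [(3, ri T i, ri T j, q), (3, (svars T).length + 1, ri T k, q + 1)]

/-- The block of a constraint at the position `q`: the squared error, and the mean of the last
value of the previous block and this. -/
def blk (T : List Con) (c : Con) (q : ℕ) : List Gt :=
  two T c q ++ [(2, q + 1, 0, q + 2), (1, q, q + 2, q + 3), (3, q + 3, q + 3, q + 4),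
    (1, q - 1, q + 4, q + 5)]

/-- The gates of a (bounded) system for `p = 1`: a straight-line program. -/
def gates1 (T : List Con) : List Gt :=
  pre T ++ T.zipIdx.flatMap (fun p => blk T p.1 (bas T + 6 * p.2)) ++
    [(1, bas T + 6 * T.length - 1, (svars T).length + 3 + sqn T, bas T + 6 * T.length)]

/-- the output variable -/
def out1 (T : List Con) : ℕ := bas T + 6 * T.length

/-- A straight-line program whose inputs are the variables below `N₀`: the `t`-th gate computes the
variable `N₀ + t` from earlier variables. -/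
def Wf (N₀ : ℕ) (L : List Gt) : Prop :=
  ∀ t g, L[t]? = some g → g.1 ≤ 3 ∧ g.2.2.2 = N₀ + t ∧
    (g.1 ≠ 0 → g.2.1 < N₀ + t) ∧ (g.1 = 1 ∨ g.1 = 3 → g.2.2.1 < N₀ + t)

/-! ### Rows and columns -/

/-- The rows: `(4, j, j, j)` stands for the row `(x_j, x_j, 1)`, `(5, j, j, j)` for `(1, x_j, 1)`, and
the gates `(t, i, j, k)` for the rows
`(c, 0, 1)` (`t = 0`, `c` the constant), `(x_i, x_j, 1)` (`t = 1`), `(x_i, x_k, 1)` (`t = 2, 3`). -/
def rws (N : ℕ) (L : List Gt) : List Gt :=
  ((List.range N).map fun j => (4, j, j, j)) ++ ((List.range N).map fun j => (5, j, j, j)) ++ L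

/-- The columns: `(0, j)`, …, `(3, j)` stand for `(1, 0, -x_j)`, `(0, 1, -x_j)`, `(1/2, 1/2, -x_j)`,
`(-x_j, 1, 0)`; `(4, 0)` is `(1, -1, 0)` and `(5, 0)` is `(1, 1, 0)`. (For `p = 1` there is also the
column `(6, 0)`, which is `(δ, 0, 0)`.) -/
def cls (N : ℕ) : List (ℕ × ℕ) :=
  ((List.range N).flatMap fun j => [(0, j), (1, j), (2, j), (3, j)]) ++ [(4, 0), (5, 0)]

/-- the columns orthogonal to a row -/
def gset (g : Gt) : List (ℕ × ℕ) :=
  if g.1 = 0 then [(0, g.2.2.2)]
  else if g.1 = 1 then [(0, g.2.1), (1, g.2.2.1), (2, g.2.2.2)]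
  else if g.1 = 2 then [(0, g.2.1), (1, g.2.2.2), (5, 0)]
  else if g.1 = 3 then [(0, g.2.1), (1, g.2.2.2), (3, g.2.2.1)]
  else if g.1 = 4 then [(0, g.2.1), (1, g.2.1), (2, g.2.1), (4, 0)]
  else [(1, g.2.1), (3, g.2.1)]

/-- The code of the coordinate `l` of a row: `0` is unknown, see `spv` for the others. -/
def rsp (g : Gt) (l : ℕ) : ℕ :=
  if g.1 = 0 then
    (if l = 0 then (if g.2.2.1 = 8 then 5 else if g.2.2.1 = 1 then 6 else 1)
     else if l = 1 then 1 else 2)
  else if g.1 = 5 then (if l = 1 then 0 else 2)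
  else (if l = 2 then 2 else 0)

/-- The code of the coordinate `l` of a column. -/
def csp (c : ℕ × ℕ) (l : ℕ) : ℕ :=
  if c.1 = 0 then (if l = 0 then 2 else if l = 1 then 1 else 0)
  else if c.1 = 1 then (if l = 0 then 1 else if l = 1 then 2 else 0)
  else if c.1 = 2 then (if l = 2 then 0 else 4)
  else if c.1 = 3 then (if l = 0 then 0 else if l = 1 then 2 else 1)
  else if c.1 = 4 then (if l = 0 then 2 else if l = 1 then 3 else 1)
  else if c.1 = 5 then (if l = 2 then 1 else 2)
  else (if l = 0 then 7 else 1)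

/-- The value of a known coordinate. -/
noncomputable def spv (γ δ : ℝ) (c : ℕ) : ℝ :=
  if c = 2 then 1 else if c = 3 then -1 else if c = 4 then 1 / 2 else if c = 5 then γ
  else if c = 6 then γ / 8 else if c = 7 then δ else 0

/-- A coordinate with the code `c` may be `x`. -/
def Fits (γ δ : ℝ) (c : ℕ) (x : ℝ) : Prop := c = 0 ∨ x = spv γ δ c

/-- A coordinate with the code `c` is in the box: `[-B, B]` if it is unknown. -/
def InBox (γ δ B : ℝ) (c : ℕ) (x : ℝ) : Prop := if c = 0 then |x| ≤ B else x = spv γ δ c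

/-- The indices that matter in the gates are less than `N`. -/
def Bd (N : ℕ) (L : List Gt) : Prop :=
  ∀ g ∈ L, g.1 ≤ 3 ∧ g.2.2.2 < N ∧ (g.1 ≠ 0 → g.2.1 < N) ∧ (g.1 = 1 ∨ g.1 = 3 → g.2.2.1 < N)

/-- The vector of a row. -/
noncomputable def rvec (γ : ℝ) (v : ℕ → ℝ) (g : Gt) : Fin 3 → ℝ :=
  if g.1 = 0 then ![cv γ g.2.2.1, 0, 1]
  else if g.1 = 1 then ![v g.2.1, v g.2.2.1, 1]
  else if g.1 = 2 then ![v g.2.1, v g.2.2.2, 1]
  else if g.1 = 3 then ![v g.2.1, v g.2.2.2, 1]
  else if g.1 = 4 then ![v g.2.1, v g.2.1, 1]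
  else ![1, v g.2.1, 1]

/-- The vector of a column. -/
noncomputable def cvec (δ : ℝ) (v : ℕ → ℝ) (c : ℕ × ℕ) : Fin 3 → ℝ :=
  if c.1 = 0 then ![1, 0, -v c.2]
  else if c.1 = 1 then ![0, 1, -v c.2]
  else if c.1 = 2 then ![1 / 2, 1 / 2, -v c.2]
  else if c.1 = 3 then ![-v c.2, 1, 0]
  else if c.1 = 4 then ![1, -1, 0]
  else if c.1 = 5 then ![1, 1, 0]
  else ![δ, 0, 0]

/-- the cell `(a, b)` is a gate cell: the column `b` has to be orthogonal to the row `a` -/
def isG (rs : List Gt) (cs : List (ℕ × ℕ)) (a b : ℕ) : Bool :=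
  decide (cs.getD b (0, 0) ∈ gset (rs.getD a (0, 0, 0, 0)))

/-! ### The map for `p = 0` -/

/-- The value of a known coordinate for `p = 0`. -/
def spq (c : ℕ) : ℚ :=
  if c = 2 then 1 else if c = 3 then -1 else if c = 4 then 1 / 2 else if c = 5 then 1
  else if c = 6 then 1 / 8 else 0

/-- The pattern: the first three rows and columns give the coordinates. -/
def cell0 (rs : List Gt) (cs : List (ℕ × ℕ)) (i j : ℕ) : Option ℚ :=
  if i < 3 then
    (if j < 3 then some (if i = j then 1 else 0)
     else if csp (cs.getD (j - 3) (0, 0)) i = 0 then none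
     else some (spq (csp (cs.getD (j - 3) (0, 0)) i)))
  else if j < 3 then
    (if rsp (rs.getD (i - 3) (0, 0, 0, 0)) j = 0 then none
     else some (spq (rsp (rs.getD (i - 3) (0, 0, 0, 0)) j)))
  else if isG rs cs (i - 3) (j - 3) then some 0 else none

/-- The number of the empty cells of a pattern. -/
def nst (m n : ℕ) (F : ℕ → ℕ → Option ℚ) : ℕ :=
  ((List.range m).flatMap fun i => (List.range n).filter fun j => (F i j).isNone).length

/-- the number of copies of a row -/
def cp1 (s : ℕ) : ℕ := 6 * s + 1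

/-- the number of copies of a column -/
def cp2 (s : ℕ) : ℕ := (6 * s + 1) ^ 5

/-- The matrix with `cp1 s` copies of every row and `cp2 s` copies of every column, the empty
cells being replaced by Hilbert matrices. -/
def blow (s : ℕ) (F : ℕ → ℕ → Option ℚ) (i j : ℕ) : ℚ :=
  (F (i / cp1 s) (j / cp2 s)).getD (1 / ((i % cp1 s + j % cp2 s + 1 : ℕ) : ℚ))

/-- The number of the entries of a matrix that differ from a matrix of rank at most `3`. -/
noncomputable def wrong (M K : ℕ) (f : ℕ → ℕ → ℚ) (U V : ℕ → Fin 3 → ℝ) : ℕ :=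
  ((Finset.range M ×ˢ Finset.range K).filter fun p => (f p.1 p.2 : ℝ) ≠ dot (U p.1) (V p.2)).card

/-- The instance for `p = 0` of a pattern. -/
def inst0 (m n : ℕ) (F : ℕ → ℕ → Option ℚ) : List (List ℚ) × ℕ × ℚ :=
  (tab (cp1 (nst m n F) * m) (cp2 (nst m n F) * n) (blow (nst m n F) F), 3,
    ((nst m n F * (cp1 (nst m n F) * cp2 (nst m n F)) + 1 : ℕ) : ℚ))

/-- The reduction for `p = 0`. -/
def red0 (S : List Con) : List (List ℚ) × ℕ × ℚ :=
  inst0 (3 + (rws (num0 S) (gates0 S)).length) (3 + (cls (num0 S)).length)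
    (cell0 (rws (num0 S) (gates0 S)) (cls (num0 S)))

/-! ### The map for `p = 1` -/

/-- The columns for `p = 1`. -/
def cls1 (N : ℕ) : List (ℕ × ℕ) := cls N ++ [(6, 0)]

/-- The kind of a cell: `0` for the gate cells, `2` for the target cell, which is in the row
`(4, N - 1)` and the last column, and `1` for the others. -/
def knd (N : ℕ) (rs : List Gt) (cs : List (ℕ × ℕ)) (a b : ℕ) : ℕ :=
  if isG rs cs a b then 0 else if a = N - 1 ∧ b = cs.length - 1 then 2 else 1

/-- the codes of the row `a` -/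
def rcd (rs : List Gt) (a l : ℕ) : ℕ := rsp (rs.getD a (0, 0, 0, 0)) l

/-- the codes of the column `b` -/
def ccd (cs : List (ℕ × ℕ)) (b l : ℕ) : ℕ := csp (cs.getD b (0, 0)) l

/-- The entries of the matrix for `p = 1`, with real parameters. There are two copies of the three
identity rows and columns and of all the other rows and columns. -/
noncomputable def ent1 (R κ δ : ℝ) (rc cc kd : ℕ → ℕ → ℕ) (i j : ℕ) : ℝ :=
  if i < 6 then
    (if j < 6 then (if i / 2 = j / 2 then R ^ 2 else 0)
     else if cc ((j - 6) / 2) (i / 2) = 0 then (if i % 2 = 0 then -(R * κ) else R * κ)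
     else R * spv κ δ (cc ((j - 6) / 2) (i / 2)))
  else if j < 6 then
    (if rc ((i - 6) / 2) (j / 2) = 0 then (if j % 2 = 0 then -(R * κ) else R * κ)
     else R * spv κ δ (rc ((i - 6) / 2) (j / 2)))
  else if kd ((i - 6) / 2) ((j - 6) / 2) = 0 then 0
  else if kd ((i - 6) / 2) ((j - 6) / 2) = 2 then -3
  else if i % 2 = j % 2 then 3 else -3

/-- The value of a known coordinate times `R`, where `κ = 1 / K`, `δ = 1 / D`, `R = 16 K D W`. -/
def spz (K D W c : ℕ) : ℤ :=
  if c = 2 then (16 * K * D * W : ℕ) else if c = 3 then -((16 * K * D * W : ℕ) : ℤ)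
  else if c = 4 then (8 * K * D * W : ℕ) else if c = 5 then (16 * D * W : ℕ)
  else if c = 6 then (2 * D * W : ℕ) else if c = 7 then (16 * K * W : ℕ) else 0

/-- The entries of the matrix for `p = 1`. -/
def ent1z (K D W : ℕ) (rc cc kd : ℕ → ℕ → ℕ) (i j : ℕ) : ℤ :=
  if i < 6 then
    (if j < 6 then (if i / 2 = j / 2 then ((16 * K * D * W) ^ 2 : ℕ) else 0)
     else if cc ((j - 6) / 2) (i / 2) = 0 then
       (if i % 2 = 0 then -((16 * D * W : ℕ) : ℤ) else (16 * D * W : ℕ))
     else spz K D W (cc ((j - 6) / 2) (i / 2)))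
  else if j < 6 then
    (if rc ((i - 6) / 2) (j / 2) = 0 then
       (if j % 2 = 0 then -((16 * D * W : ℕ) : ℤ) else (16 * D * W : ℕ))
     else spz K D W (rc ((i - 6) / 2) (j / 2)))
  else if kd ((i - 6) / 2) ((j - 6) / 2) = 0 then 0
  else if kd ((i - 6) / 2) ((j - 6) / 2) = 2 then -3
  else if i % 2 = j % 2 then 3 else -3

/-- The number of the unknown coordinates of `m` vectors. -/
def nun (m : ℕ) (rc : ℕ → ℕ → ℕ) : ℕ :=
  ((List.range m).flatMap fun a => (List.range 3).filter fun l => decide (rc a l = 0)).length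

/-- The number of the cells that are not gate cells. -/
def nng (m n : ℕ) (kd : ℕ → ℕ → ℕ) : ℕ :=
  ((List.range m).flatMap fun a => (List.range n).filter fun b => decide (kd a b ≠ 0)).length

/-- The instance for `p = 1`. -/
def inst1 (m n K D W : ℕ) (rc cc kd : ℕ → ℕ → ℕ) : List (List ℚ) × ℕ × ℚ :=
  (tab (6 + 2 * m) (6 + 2 * n) (fun i j => ((ent1z K D W rc cc kd i j : ℤ) : ℚ)), 3,
    ((64 * D * W * (nun m rc + nun n cc) + 12 * nng m n kd : ℕ) : ℚ))

/-- The instance for `p = 1` of a straight-line program with `N` variables. -/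
def slp1 (N : ℕ) (L : List Gt) : List (List ℚ) × ℕ × ℚ :=
  inst1 (rws N L).length (cls1 N).length (8 * (rws N L).length * (cls1 N).length)
    (100 * (N + 1)) (10 ^ 4 * ((rws N L).length + (cls1 N).length + 1) ^ 2)
    (rcd (rws N L)) (ccd (cls1 N)) (knd N (rws N L) (cls1 N))

/-- The reduction for `p = 1`. -/
def red1 (S : List Con) : List (List ℚ) × ℕ × ℚ :=
  slp1 (out1 (bsys S) + 1) (gates1 (bsys S))

/-! ### The cost for `p = 1` -/

/-- the difference of the two copies of a vector -/
def dif (r : ℕ → Fin 3 → ℝ) : Fin 3 → ℝ := fun l => r 0 l - r 1 l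

/-- The cost of the coordinate `x` with the code `c`. -/
noncomputable def pen (R κ δ : ℝ) (c : ℕ) (x : ℝ) : ℝ :=
  if c = 0 then |-(R * κ) - R * x| + |R * κ - R * x|
  else |R * spv κ δ c - R * x| + |R * spv κ δ c - R * x|

/-- The entry of a cell of the kind `k` in the copies `s` and `t`. -/
def cen (k s t : ℕ) : ℝ := if k = 0 then 0 else if k = 2 then -3 else if s = t then 3 else -3

/-- The cost when the identity rows and columns are exact. -/
noncomputable def costV (m n : ℕ) (R κ δ : ℝ) (rc cc kd : ℕ → ℕ → ℕ)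
    (r w : ℕ → ℕ → Fin 3 → ℝ) : ℝ :=
  (∑ a ∈ Finset.range m, ∑ s ∈ Finset.range 2, ∑ l : Fin 3, pen R κ δ (rc a l) (r a s l)) +
  (∑ b ∈ Finset.range n, ∑ t ∈ Finset.range 2, ∑ l : Fin 3, pen R κ δ (cc b l) (w b t l)) +
  ∑ a ∈ Finset.range m, ∑ b ∈ Finset.range n, ∑ s ∈ Finset.range 2, ∑ t ∈ Finset.range 2,
    |cen (kd a b) s t - dot (r a s) (w b t)|

/-- The cost. -/
noncomputable def tot (m n : ℕ) (R κ δ : ℝ) (rc cc kd : ℕ → ℕ → ℕ)
    (U V : ℕ → Fin 3 → ℝ) : ℝ :=
  ∑ i ∈ Finset.range (6 + 2 * m), ∑ j ∈ Finset.range (6 + 2 * n),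
    |ent1 R κ δ rc cc kd i j - dot (U i) (V j)|

/-- The first six vectors are multiples of the vectors of the standard basis. -/
def Exact (R : ℝ) (U : ℕ → Fin 3 → ℝ) : Prop :=
  ∀ i < 6, ∀ l : Fin 3, U i l = if i / 2 = (l : ℕ) then R else 0

/-- The part of the cost that matters. -/
noncomputable def Psi (m n : ℕ) (kd : ℕ → ℕ → ℕ) (r w : ℕ → ℕ → Fin 3 → ℝ) : ℝ :=
  ∑ a ∈ Finset.range m, ∑ b ∈ Finset.range n,
    if kd a b = 0 then
      ∑ s ∈ Finset.range 2, ∑ t ∈ Finset.range 2, |dot (r a s) (w b t)|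
    else if kd a b = 2 then
      ∑ s ∈ Finset.range 2, ∑ t ∈ Finset.range 2, dot (r a s) (w b t)
    else - dot (dif (r a)) (dif (w b))

end Pool.Agent.Q230.LR
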