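import Pool.Agent.Q230.LR.St
import Pool.Agent.Q257.LR.VC

/-!
# Project LR: assembly for `p = 0`
-/

set_option autoImplicit false

namespace Pool.Agent.Q230.LR

open Pool.Agent.NPC Pool.Agent.NPC.ER

open Pool.Agent.Q257.LR.V (SVC)

/-- Cutting off a run. -/
theorem hld_cut {N : ℕ} {L : List Gt} (hB : Bd N L) {γ : ℝ} {v : ℕ → ℝ}
    (h : ∀ g ∈ L, Hld γ v g) : ∀ g ∈ L, Hld γ (fun k => if k < N then v k else 0) g := by
  intro g hg
  obtain ⟨h0, h1, h2, h3⟩ := hB g hg
  have h4 := h g hg
  unfold Hld op at h4 ⊢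
  simp only [if_pos h1]
  rw [h4]
  by_cases g0 : g.1 = 0
  · simp [g0]
  · have h2' := h2 g0
    rw [if_neg g0, if_neg g0]
    by_cases g1 : g.1 = 1
    · have h3' := h3 (Or.inl g1)
      simp only [if_pos g1, if_pos h2', if_pos h3']
    · rw [if_neg g1, if_neg g1]
      by_cases g2 : g.1 = 2
      · simp only [if_pos g2, if_pos h2']
      · rw [if_neg g2, if_neg g2]
        have g3 : g.1 = 3 := by omega
        have h3' := h3 (Or.inr g3)
        simp only [if_pos h2', if_pos h3']

/-- Members of the list of the rows. -/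
theorem mem_rws {N : ℕ} {L : List Gt} {g : Gt} : g ∈ rws N L ↔
    (∃ j < N, (4, j, j, j) = g) ∨ (∃ j < N, (5, j, j, j) = g) ∨ g ∈ L := by
  unfold rws
  simp only [List.mem_append, List.mem_map, List.mem_range, or_assoc]

/-- Members of the list of the columns. -/
theorem mem_cls {N : ℕ} {c : ℕ × ℕ} : c ∈ cls N ↔
    (c.1 ≤ 3 ∧ c.2 < N) ∨ c = (4, 0) ∨ c = (5, 0) := by
  unfold cls
  simp only [List.mem_append, List.mem_flatMap, List.mem_range, List.mem_cons, List.not_mem_nil,
    or_false]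
  constructor
  · rintro (⟨j, hj, rfl | rfl | rfl | rfl⟩ | rfl | rfl)
    · exact Or.inl ⟨by norm_num, hj⟩
    · exact Or.inl ⟨by norm_num, hj⟩
    · exact Or.inl ⟨by norm_num, hj⟩
    · exact Or.inl ⟨by norm_num, hj⟩
    · exact Or.inr (Or.inl rfl)
    · exact Or.inr (Or.inr rfl)
  · rintro (⟨h1, h2⟩ | rfl | rfl)
    · obtain ⟨a, b⟩ := c
      refine Or.inl ⟨b, h2, ?_⟩
      simp only at h1
      interval_cases a <;> simp
    · exact Or.inr (Or.inl rfl)
    · exact Or.inr (Or.inr rfl)

/-- the type of a row -/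
theorem le5_rws {N : ℕ} {L : List Gt} (hB : Bd N L) {g : Gt} (hg : g ∈ rws N L) : g.1 ≤ 5 := by
  rcases mem_rws.1 hg with ⟨j, _, rfl⟩ | ⟨j, _, rfl⟩ | h
  · norm_num
  · norm_num
  · have := (hB g h).1
    omega

theorem getD_mem_rws {N : ℕ} {L : List Gt} {a : ℕ} (ha : a < (rws N L).length) :
    (rws N L).getD a (0, 0, 0, 0) ∈ rws N L := by
  rw [List.getD_eq_getElem _ _ ha]
  exact List.getElem_mem _

/-- The columns orthogonal to a row are columns. -/
theorem gset_sub {N : ℕ} {L : List Gt} (hB : Bd N L) {g : Gt} (hg : g ∈ rws N L) {c : ℕ × ℕ}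
    (hc : c ∈ gset g) : c ∈ cls N := by
  rw [mem_cls]
  rw [mem_rws] at hg
  rcases hg with ⟨j, hj, rfl⟩ | ⟨j, hj, rfl⟩ | hg
  · unfold gset at hc
    simp only [List.mem_cons, List.not_mem_nil, or_false] at hc
    norm_num at hc
    rcases hc with rfl | rfl | rfl | rfl <;> simp [hj]
  · unfold gset at hc
    norm_num at hc
    rcases hc with rfl | rfl <;> simp [hj]
  · obtain ⟨h0, h1, h2, h3⟩ := hB g hg
    unfold gset at hc
    by_cases g0 : g.1 = 0
    · rw [if_pos g0] at hc
      simp only [List.mem_singleton] at hc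
      subst hc
      exact Or.inl ⟨by norm_num, h1⟩
    rw [if_neg g0] at hc
    have h2' := h2 g0
    by_cases g1 : g.1 = 1
    · rw [if_pos g1] at hc
      have h3' := h3 (Or.inl g1)
      simp only [List.mem_cons, List.not_mem_nil, or_false] at hc
      rcases hc with rfl | rfl | rfl
      · exact Or.inl ⟨by norm_num, h2'⟩
      · exact Or.inl ⟨by norm_num, h3'⟩
      · exact Or.inl ⟨by norm_num, h1⟩
    rw [if_neg g1] at hc
    by_cases g2 : g.1 = 2
    · rw [if_pos g2] at hc
      simp only [List.mem_cons, List.not_mem_nil, or_false] at hc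
      rcases hc with rfl | rfl | rfl
      · exact Or.inl ⟨by norm_num, h2'⟩
      · exact Or.inl ⟨by norm_num, h1⟩
      · exact Or.inr (Or.inr rfl)
    rw [if_neg g2] at hc
    have g3 : g.1 = 3 := by omega
    have h3' := h3 (Or.inr g3)
    rw [if_pos g3] at hc
    simp only [List.mem_cons, List.not_mem_nil, or_false] at hc
    rcases hc with rfl | rfl | rfl
    · exact Or.inl ⟨by norm_num, h2'⟩
    · exact Or.inl ⟨by norm_num, h1⟩
    · exact Or.inl ⟨by norm_num, h3'⟩

theorem isG_idx {rs : List Gt} {cs : List (ℕ × ℕ)} {g : Gt} {c : ℕ × ℕ} (hg : g ∈ rs)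
    (hc : c ∈ cs) (h : c ∈ gset g) : isG rs cs (rs.idxOf g) (cs.idxOf c) = true := by
  unfold isG
  have h1 : rs.idxOf g < rs.length := List.idxOf_lt_length_of_mem hg
  have h2 : cs.idxOf c < cs.length := List.idxOf_lt_length_of_mem hc
  rw [List.getD_eq_getElem _ _ h1, List.getD_eq_getElem _ _ h2, List.getElem_idxOf h1,
    List.getElem_idxOf h2]
  simp [h]

theorem getD_idx {α : Type} [BEq α] [LawfulBEq α] {l : List α} {g d : α} (hg : g ∈ l) :
    l.getD (l.idxOf g) d = g := by
  have h1 : l.idxOf g < l.length := List.idxOf_lt_length_of_mem hg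
  rw [List.getD_eq_getElem _ _ h1, List.getElem_idxOf h1]

/-- The vectors and the gates for `p = 0`. -/
theorem vec0 (hvc : SVC) (hveb : S_VEB) {N : ℕ} {L : List Gt} (hB : Bd N L) :
    (∃ v : ℕ → ℝ, ∀ g ∈ L, Hld 1 v g) ↔ ∃ r w : ℕ → Fin 3 → ℝ,
      (∀ a < (rws N L).length, ∀ l : Fin 3, Fits 1 0 (rcd (rws N L) a l) (r a l)) ∧
      (∀ b < (cls N).length, ∀ l : Fin 3, Fits 1 0 (ccd (cls N) b l) (w b l)) ∧
      ∀ a < (rws N L).length, ∀ b < (cls N).length, isG (rws N L) (cls N) a b = true →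
        dot (r a) (w b) = 0 := by
  constructor
  · rintro ⟨v, hv⟩
    have hv' := hld_cut hB hv
    set v' : ℕ → ℝ := fun k => if k < N then v k else 0 with hv'd
    have hbd : ∀ k, |v' k| ≤ ∑ j ∈ Finset.range N, |v j| := by
      intro k
      by_cases hk : k < N
      · simp only [hv'd, if_pos hk]
        exact Finset.single_le_sum (f := fun j => |v j|) (fun j _ => abs_nonneg _)
          (Finset.mem_range.2 hk)
      · simp only [hv'd, if_neg hk, abs_zero]
        exact Finset.sum_nonneg fun j _ => abs_nonneg _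
    refine ⟨fun a => rvec 1 v' ((rws N L).getD a (0, 0, 0, 0)),
      fun b => cvec 0 v' ((cls N).getD b (0, 0)), ?_, ?_, ?_⟩
    · intro a ha l
      have h := (hvc 1 0 _ v' ((rws N L).getD a (0, 0, 0, 0))).2.1
        (le5_rws hB (getD_mem_rws ha)) hbd l
      unfold InBox at h
      unfold Fits rcd
      by_cases h0 : rsp ((rws N L).getD a (0, 0, 0, 0)) l = 0
      · exact Or.inl h0
      · rw [if_neg h0] at h
        exact Or.inr h
    · intro b hb l
      have h := (hvc 1 0 _ v' (0, 0, 0, 0)).2.2 hbd ((cls N).getD b (0, 0)) l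
      unfold InBox at h
      unfold Fits ccd
      by_cases h0 : csp ((cls N).getD b (0, 0)) l = 0
      · exact Or.inl h0
      · rw [if_neg h0] at h
        exact Or.inr h
    · intro a ha b hb hG
      unfold isG at hG
      have h1 := of_decide_eq_true hG
      refine (hvc 1 0 0 v' _).1 ?_ _ h1
      intro h3
      have hmem : (rws N L).getD a (0, 0, 0, 0) ∈ rws N L := by
        rw [List.getD_eq_getElem _ _ ha]
        exact List.getElem_mem _
      rcases mem_rws.1 hmem with ⟨j, _, hj⟩ | ⟨j, _, hj⟩ | h4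
      · rw [← hj] at h3; norm_num at h3
      · rw [← hj] at h3; norm_num at h3
      · exact hv' _ h4
  · rintro ⟨r, w, hr, hw, hd⟩
    set B : ℝ := ∑ a ∈ Finset.range (rws N L).length, ∑ l : Fin 3, |r a l| +
      ∑ b ∈ Finset.range (cls N).length, ∑ l : Fin 3, |w b l| with hBd
    have hp1 : 0 ≤ ∑ a ∈ Finset.range (rws N L).length, ∑ l : Fin 3, |r a l| :=
      Finset.sum_nonneg fun _ _ => Finset.sum_nonneg fun _ _ => abs_nonneg _
    have hp2 : 0 ≤ ∑ b ∈ Finset.range (cls N).length, ∑ l : Fin 3, |w b l| :=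
      Finset.sum_nonneg fun _ _ => Finset.sum_nonneg fun _ _ => abs_nonneg _
    have hB0 : 0 ≤ B := by rw [hBd]; exact add_nonneg hp1 hp2
    have hr1 : ∀ a < (rws N L).length, ∀ l : Fin 3, |r a l| ≤ B := by
      intro a ha l
      have h1 : |r a l| ≤ ∑ l : Fin 3, |r a l| :=
        Finset.single_le_sum (f := fun l => |r a l|) (fun j _ => abs_nonneg _)
          (Finset.mem_univ l)
      have h2 : ∑ l : Fin 3, |r a l| ≤
          ∑ a ∈ Finset.range (rws N L).length, ∑ l : Fin 3, |r a l| :=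
        Finset.single_le_sum (f := fun a => ∑ l : Fin 3, |r a l|)
          (fun j _ => Finset.sum_nonneg fun _ _ => abs_nonneg _) (Finset.mem_range.2 ha)
      linarith
    have hw1 : ∀ b < (cls N).length, ∀ l : Fin 3, |w b l| ≤ B := by
      intro a ha l
      have h1 : |w a l| ≤ ∑ l : Fin 3, |w a l| :=
        Finset.single_le_sum (f := fun l => |w a l|) (fun j _ => abs_nonneg _)
          (Finset.mem_univ l)
      have h2 : ∑ l : Fin 3, |w a l| ≤
          ∑ a ∈ Finset.range (cls N).length, ∑ l : Fin 3, |w a l| :=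
        Finset.single_le_sum (f := fun a => ∑ l : Fin 3, |w a l|)
          (fun j _ => Finset.sum_nonneg fun _ _ => abs_nonneg _) (Finset.mem_range.2 ha)
      linarith
    have key := hveb N L hB 1 0 B 0 hB0 le_rfl (fun g => r ((rws N L).idxOf g))
      (fun c => w ((cls N).idxOf c)) ?_ ?_ ?_
    · refine ⟨fun k => r ((rws N L).idxOf (4, k, k, k)) 0, fun g hg => ?_⟩
      have h := key g hg
      rw [mul_zero] at h
      have h2 := abs_eq_zero.1 (le_antisymm h (abs_nonneg _))
      unfold Hld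
      linarith
    · intro g hg l
      have hi : (rws N L).idxOf g < (rws N L).length := List.idxOf_lt_length_of_mem hg
      have h1 := hr _ hi l
      unfold rcd at h1
      rw [getD_idx hg] at h1
      unfold InBox
      by_cases h0 : rsp g l = 0
      · rw [if_pos h0]; exact hr1 _ hi l
      · rw [if_neg h0]; exact h1.resolve_left h0
    · intro c hc l
      have hi : (cls N).idxOf c < (cls N).length := List.idxOf_lt_length_of_mem hc
      have h1 := hw _ hi l
      unfold ccd at h1
      rw [getD_idx hc] at h1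
      unfold InBox
      by_cases h0 : csp c l = 0
      · rw [if_pos h0]; exact hw1 _ hi l
      · rw [if_neg h0]; exact h1.resolve_left h0
    · intro g hg c hc
      have hc' := gset_sub hB hg hc
      have h := hd _ (List.idxOf_lt_length_of_mem hg) _ (List.idxOf_lt_length_of_mem hc')
        (isG_idx hg hc' hc)
      simp only [h]
      norm_num

/-- The instances of a pattern. -/
theorem inst0_iff (htb : S_TB) (hm0 : S_M0) {m n : ℕ} (hm : 0 < m) (F : ℕ → ℕ → Option ℚ) :
    LRA0 (inst0 m n F) ↔ ∃ U V : ℕ → Fin 3 → ℝ, ∀ i < m, ∀ j < n, ∀ q, F i j = some q →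
      (q : ℝ) = dot (U i) (V j) := by
  unfold inst0
  have hpos : 0 < cp1 (nst m n F) * m := by unfold cp1; positivity
  rw [(htb _ _ _ _ hpos).1, ← hm0 m n F]
  constructor
  · rintro ⟨-, U, V, h⟩
    refine ⟨U, V, ?_⟩
    have h2 : (wrong (cp1 (nst m n F) * m) (cp2 (nst m n F) * n) (blow (nst m n F) F) U V : ℝ) <
        ((nst m n F * (cp1 (nst m n F) * cp2 (nst m n F)) + 1 : ℕ) : ℝ) := by
      exact_mod_cast h
    have h3 := Nat.cast_lt.1 h2
    omega
  · rintro ⟨U, V, h⟩
    refine ⟨by positivity, U, V, ?_⟩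
    have h3 : wrong (cp1 (nst m n F) * m) (cp2 (nst m n F) * n) (blow (nst m n F) F) U V <
        nst m n F * (cp1 (nst m n F) * cp2 (nst m n F)) + 1 := by omega
    exact_mod_cast h3

/-- **The reduction for `p = 0` is correct.** -/
theorem red0_iff (hgs : S_GS0) (hvc : SVC) (hveb : S_VEB) (htb : S_TB) (hm0 : S_M0)
    (hnrm : S_NRM) (S : List Con) : Sat S ↔ LRA0 (red0 S) := by
  unfold red0
  rw [(hgs S).1, inst0_iff htb hm0 (by omega), hnrm, vec0 hvc hveb (hgs S).2]

/-- The reduction for `p = 0` is computable in polynomial time. -/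
theorem poly_red0 (hpg : S_PG) (hpr : S_PR) (hpi : S_PI0) : Poly red0 := by
  have h1 : Poly (fun S : List Con => rws (num0 S) (gates0 S)) := hpr.1 num0 gates0 hpg.2.1 hpg.1
  have h2 : Poly (fun S : List Con => cls (num0 S)) := (hpr.2.1 num0 hpg.2.1).1
  refine hpi (fun S => 3 + (rws (num0 S) (gates0 S)).length) (fun S => 3 + (cls (num0 S)).length)
    (fun S => cell0 (rws (num0 S) (gates0 S)) (cls (num0 S)))
    ((UPoly.const 3).add (UPoly.length h1)) ((UPoly.const 3).add (UPoly.length h2)) ?_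
  exact (hpr.2.2 (fun p : List Con × ℕ × ℕ => num0 p.1)
    (fun p => rws (num0 p.1) (gates0 p.1)) (fun p => cls (num0 p.1)) (fun p => p.2.1)
    (fun p => p.2.2) (UPoly.toPoly hpg.2.1 |>.comp (Poly.fst Poly.id))
    (h1.comp (Poly.fst Poly.id)) (h2.comp (Poly.fst Poly.id)) (Poly.fst (Poly.snd Poly.id))
    (Poly.snd (Poly.snd Poly.id))).2.2.2

end Pool.Agent.Q230.LR
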