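import Pool.Agent.Q230.LR.Main0

/-!
# Project LR: assembly for `p = 1`
-/

set_option autoImplicit false

namespace Pool.Agent.Q230.LR

open Pool.Agent.NPC Pool.Agent.NPC.ER
open Pool.Agent.Q257.LR.V (SVC)

theorem Wf.bd {N₀ : ℕ} {L : List Gt} (h : Wf N₀ L) : Bd (N₀ + L.length) L := by
  intro g hg
  obtain ⟨t, ht⟩ := List.mem_iff_getElem?.1 hg
  have hlt : t < L.length := by
    by_contra h1
    rw [List.getElem?_eq_none (by omega)] at ht
    cases ht
  obtain ⟨h0, h1, h2, h3⟩ := h t g ht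
  exact ⟨h0, by omega, fun h4 => by have := h2 h4; omega, fun h4 => by have := h3 h4; omega⟩

theorem length_rws (N : ℕ) (L : List Gt) : (rws N L).length = 2 * N + L.length := by
  unfold rws
  simp only [List.length_append, List.length_map, List.length_range]
  omega

theorem length_cls (N : ℕ) : (cls N).length = 4 * N + 2 := by
  unfold cls
  simp only [List.length_append, List.length_flatMap, List.length_cons, List.length_nil,
    List.map_const', List.length_range, List.sum_replicate, smul_eq_mul]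
  omega

theorem length_cls1 (N : ℕ) : (cls1 N).length = 4 * N + 3 := by
  unfold cls1
  rw [List.length_append, length_cls]
  rfl

theorem getD_rws {N : ℕ} {L : List Gt} {k : ℕ} (hk : k < N) :
    (rws N L).getD k (0, 0, 0, 0) = (4, k, k, k) := by
  unfold rws
  rw [List.append_assoc, List.getD_append _ _ _ _ (by simpa using hk)]
  rw [List.getD_eq_getElem _ _ (by simpa using hk)]
  simp

/-- the number of the unknown coordinates is at most three times the number of the vectors -/
theorem nun_le (m : ℕ) (rc : ℕ → ℕ → ℕ) : nun m rc ≤ 3 * m := by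
  unfold nun
  rw [List.length_flatMap]
  have h : ∀ l : List ℕ, (l.map fun a => ((List.range 3).filter
      fun j => decide (rc a j = 0)).length).sum ≤ 3 * l.length := by
    intro l
    induction l with
    | nil => simp
    | cons a l ih =>
      simp only [List.map_cons, List.sum_cons, List.length_cons]
      have h1 := List.length_filter_le (fun j => decide (rc a j = 0)) (List.range 3)
      rw [List.length_range] at h1
      omega
  have h2 := h (List.range m)
  rwa [List.length_range] at h2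

theorem nng_le (m n : ℕ) (kd : ℕ → ℕ → ℕ) : nng m n kd ≤ m * n := by
  unfold nng
  rw [List.length_flatMap]
  have h : ∀ l : List ℕ, (l.map fun a => ((List.range n).filter
      fun j => decide (kd a j ≠ 0)).length).sum ≤ l.length * n := by
    intro l
    induction l with
    | nil => simp
    | cons a l ih =>
      simp only [List.map_cons, List.sum_cons, List.length_cons]
      have h1 := List.length_filter_le (fun j => decide (kd a j ≠ 0)) (List.range n)
      rw [List.length_range] at h1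
      rw [add_mul, one_mul]
      omega
  have h2 := h (List.range m)
  rwa [List.length_range] at h2

theorem nng_pos {m n : ℕ} {kd : ℕ → ℕ → ℕ} {a b : ℕ} (ha : a < m) (hb : b < n)
    (h : kd a b ≠ 0) : 0 < nng m n kd := by
  unfold nng
  apply List.length_pos_of_mem (a := b)
  rw [List.mem_flatMap]
  exact ⟨a, List.mem_range.2 ha, List.mem_filter.2 ⟨List.mem_range.2 hb, by simpa using h⟩⟩

/-- The instance for `p = 1` in terms of the cost. -/
theorem inst1_iff (htb : S_TB) (hez : S_EZ) {m n K D W : ℕ} {rc cc kd : ℕ → ℕ → ℕ} (hK : 0 < K)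
    (hD : 0 < D) (hpos : 0 < nng m n kd) :
    LRA1 (inst1 m n K D W rc cc kd) ↔ ∃ U V : ℕ → Fin 3 → ℝ,
      tot m n (16 * K * D * W) (1 / K) (1 / D) rc cc kd U V <
        4 * (16 * K * D * W) * (1 / K) * ((nun m rc + nun n cc : ℕ) : ℝ) +
          12 * (nng m n kd : ℝ) := by
  unfold inst1
  rw [(htb _ _ _ _ (by omega)).2]
  have hε : ((((64 * D * W * (nun m rc + nun n cc) + 12 * nng m n kd : ℕ) : ℚ)) : ℝ) =
      4 * (16 * K * D * W) * (1 / K) * ((nun m rc + nun n cc : ℕ) : ℝ) +
          12 * (nng m n kd : ℝ) := by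
    have hK' : (K : ℝ) ≠ 0 := by positivity
    push_cast
    field_simp
    ring
  have hsum : ∀ U V : ℕ → Fin 3 → ℝ,
      ∑ i ∈ Finset.range (6 + 2 * m), ∑ j ∈ Finset.range (6 + 2 * n),
        |(((ent1z K D W rc cc kd i j : ℤ) : ℚ) : ℝ) - dot (U i) (V j)| =
      tot m n (16 * K * D * W) (1 / K) (1 / D) rc cc kd U V := by
    intro U V
    unfold tot
    refine Finset.sum_congr rfl fun i _ => Finset.sum_congr rfl fun j _ => ?_
    rw [← hez K D W rc cc kd i j hK hD]
    push_cast
    rfl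
  simp only [hsum, hε]
  constructor
  · rintro ⟨-, h⟩
    exact h
  · intro h
    refine ⟨?_, h⟩
    have h2 : 0 < 64 * D * W * (nun m rc + nun n cc) + 12 * nng m n kd := by omega
    exact_mod_cast h2

/-- the vectors with exact identity vectors -/
noncomputable def ext (R : ℝ) (r : ℕ → Fin 3 → ℝ) (i : ℕ) : Fin 3 → ℝ :=
  if i < 6 then fun l => if i / 2 = (l : ℕ) then R else 0 else r ((i - 6) / 2)

theorem exact_ext (R : ℝ) (r : ℕ → Fin 3 → ℝ) : Exact R (ext R r) := by
  intro i hi l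
  unfold ext
  rw [if_pos hi]

theorem costV_congr {m n : ℕ} {R κ δ : ℝ} {rc cc kd : ℕ → ℕ → ℕ}
    {r w r' w' : ℕ → ℕ → Fin 3 → ℝ} (h : ∀ a < m, ∀ s < 2, r a s = r' a s)
    (h' : ∀ a < n, ∀ s < 2, w a s = w' a s) :
    costV m n R κ δ rc cc kd r w = costV m n R κ δ rc cc kd r' w' := by
  unfold costV
  have e1 : ∑ a ∈ Finset.range m, ∑ s ∈ Finset.range 2, ∑ l : Fin 3, pen R κ δ (rc a l) (r a s l) =
      ∑ a ∈ Finset.range m, ∑ s ∈ Finset.range 2, ∑ l : Fin 3,
        pen R κ δ (rc a l) (r' a s l) :=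
    Finset.sum_congr rfl fun a ha => Finset.sum_congr rfl fun s hs => by
      rw [h a (Finset.mem_range.1 ha) s (Finset.mem_range.1 hs)]
  have e2 : ∑ a ∈ Finset.range n, ∑ s ∈ Finset.range 2, ∑ l : Fin 3, pen R κ δ (cc a l) (w a s l) =
      ∑ a ∈ Finset.range n, ∑ s ∈ Finset.range 2, ∑ l : Fin 3,
        pen R κ δ (cc a l) (w' a s l) :=
    Finset.sum_congr rfl fun a ha => Finset.sum_congr rfl fun s hs => by
      rw [h' a (Finset.mem_range.1 ha) s (Finset.mem_range.1 hs)]
  rw [e1, e2]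
  congr 1
  refine Finset.sum_congr rfl fun a ha => Finset.sum_congr rfl fun b hb =>
    Finset.sum_congr rfl fun s hs => Finset.sum_congr rfl fun t ht => ?_
  rw [h a (Finset.mem_range.1 ha) s (Finset.mem_range.1 hs),
    h' b (Finset.mem_range.1 hb) t (Finset.mem_range.1 ht)]

theorem num_RW {K D W : ℝ} (hK : 8 ≤ K) (hD : 100 ≤ D) (hW : 0 < W) : W ≤ 16 * K * D * W := by
  have h1 : (1 : ℝ) ≤ 16 * K * D := by
    have : (8 : ℝ) * 100 ≤ K * D := mul_le_mul hK hD (by norm_num) (by linarith)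
    linarith
  calc W = 1 * W := (one_mul W).symm
    _ ≤ 16 * K * D * W := mul_le_mul_of_nonneg_right h1 hW.le

theorem num_base {m n R κ u c : ℝ} (hm : 0 ≤ m) (hn : 0 ≤ n)
    (hR : (10 : ℝ) ^ 4 * (m + n + 1) ^ 2 ≤ R) (hκ : 0 ≤ κ) (hκ8 : κ ≤ 1 / 8) (hu0 : 0 ≤ u)
    (hu : u ≤ 3 * (m + n)) (hc : c ≤ m * n) :
    4 * R * κ * u + 12 * c ≤ 2 * R * (m + n + 1) := by
  have hR0 : 0 ≤ R := le_trans (by positivity) hR
  have h3 : 4 * R * κ * u ≤ 4 * R * (1 / 8) * (3 * (m + n)) := by
    apply mul_le_mul _ hu hu0 (by positivity)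
    exact mul_le_mul_of_nonneg_left hκ8 (by positivity)
  have h4 : 12 * (m * n) ≤ 3 * (m + n + 1) ^ 2 := by
    nlinarith [sq_nonneg (m - n)]
  have h5 : 3 * (m + n + 1) ^ 2 ≤ R * (1 / 2) := by
    have := sq_nonneg (m + n + 1)
    norm_num at hR
    linarith
  have h6 : R * (1 / 2) ≤ R * (1 / 2) * (m + n + 1) := by
    have : (1 : ℝ) ≤ m + n + 1 := by linarith
    exact le_mul_of_one_le_right (by positivity) this
  have h7 : 4 * R * (1 / 8) * (3 * (m + n)) ≤ 3 / 2 * R * (m + n + 1) := by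
    have : 0 ≤ R * 1 := by linarith
    nlinarith
  linarith

theorem num_delta {N : ℝ} (hN : 0 ≤ N) : N * (8 * (1 / (100 * (N + 1)))) ≤ 8 / 100 := by
  have h1 : (0 : ℝ) < 100 * (N + 1) := by linarith
  have h2 : N * (8 * (1 / (100 * (N + 1)))) = 8 * N / (100 * (N + 1)) := by
    field_simp
  rw [h2, div_le_div_iff₀ h1 (by norm_num)]
  linarith

/-- **The instance of a straight-line program.** -/
theorem slp1_iff (hrun : S_RUN) (hbdd : S_BDD) (hvc : SVC) (hveb : S_VEB) (hvea : S_VEA)
    (hps : S_PS1) (htb : S_TB) (hix : S_IX) (he1 : S_E1) (he2 : S_E2) (he3 : S_E3) (hez : S_EZ)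
    {N₀ N : ℕ} {L : List Gt} (hW : Wf N₀ L) (hN : N₀ + L.length = N) (hN1 : 1 ≤ N) {κ : ℝ}
    (hκ : κ = 1 / ((8 * (rws N L).length * (cls1 N).length : ℕ) : ℝ)) :
    LRA1 (slp1 N L) ↔ ∃ v : ℕ → ℝ, (∀ g ∈ L, Hld κ v g) ∧ (∀ k < N₀, |v k| ≤ κ) ∧
      v (N - 1) < 0 := by
  have hB : Bd N L := hN ▸ hW.bd
  set rs := rws N L with hrs
  set cs := cls1 N with hcs
  set m := rs.length with hm
  set n := cs.length with hn
  have hmN : m = 2 * N + L.length := length_rws N L
  have hnN : n = 4 * N + 3 := length_cls1 N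
  set K := 8 * m * n with hKd
  set D := 100 * (N + 1) with hDd
  set W := 10 ^ 4 * (m + n + 1) ^ 2 with hWd
  have hK : 0 < K := by rw [hKd]; have : 0 < m := by omega
                        have : 0 < n := by omega
                        positivity
  have hD : 0 < D := by rw [hDd]; omega
  set kd := knd N rs cs with hkd
  have hcell : isG rs cs (N - 1) (n - 1) = false := by
    unfold isG
    have h1 : rs.getD (N - 1) (0, 0, 0, 0) = (4, N - 1, N - 1, N - 1) := getD_rws (by omega)
    have h2 : cs.getD (n - 1) (0, 0) = (6, 0) := by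
      rw [hcs, hnN]
      unfold cls1
      rw [List.getD_append_right _ _ _ _ (by rw [length_cls]; omega), length_cls]
      norm_num
    rw [h1, h2]
    simp [gset]
  have hkt : kd (N - 1) (n - 1) = 2 := by
    rw [hkd]
    unfold knd
    rw [hcell, hn]
    simp
  have hpos : 0 < nng m n kd := nng_pos (a := N - 1) (b := n - 1) (by omega) (by omega) (by
    rw [hkt]; norm_num)
  have hslp : slp1 N L = inst1 m n K D W (rcd rs) (ccd cs) kd := rfl
  rw [hslp, inst1_iff htb hez hK hD hpos]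
  have hκ' : κ = 1 / (K : ℝ) := hκ
  set δ' : ℝ := 1 / (D : ℝ) with hδ'
  rw [← hκ']
  set R : ℝ := 16 * K * D * W with hR
  have hKr : (8 : ℝ) ≤ K := by
    have : 8 ≤ K := by
      rw [hKd]
      have h1 : 1 ≤ m := by omega
      have h2 : 1 ≤ n := by omega
      calc 8 = 8 * 1 * 1 := rfl
        _ ≤ 8 * m * n := Nat.mul_le_mul (Nat.mul_le_mul_left _ h1) h2
    exact_mod_cast this
  have hDr : (100 : ℝ) ≤ D := by
    have : 100 ≤ D := by rw [hDd]; omega
    exact_mod_cast this
  have hKp : (0 : ℝ) < K := by linarith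
  have hDp : (0 : ℝ) < D := by linarith
  have hκ0 : 0 < κ := by rw [hκ']; exact one_div_pos.2 hKp
  have hκ8 : κ ≤ 1 / 8 := by
    rw [hκ']
    exact one_div_le_one_div_of_le (by norm_num) hKr
  have hδ0 : 0 < δ' := one_div_pos.2 hDp
  have hδ1 : δ' ≤ 1 := by
    rw [hδ']
    rw [div_le_one hDp]
    linarith
  have hmn0 : (0 : ℝ) ≤ (m : ℝ) + n + 1 := by positivity
  have hWr : (W : ℝ) = 10 ^ 4 * ((m : ℝ) + n + 1) ^ 2 := by
    rw [hWd]; push_cast; ring
  have hW0 : (0 : ℝ) < W := by rw [hWr]; positivity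
  have hRW : (10 : ℝ) ^ 4 * ((m : ℝ) + n + 1) ^ 2 ≤ R := by
    rw [← hWr, hR]
    exact num_RW hKr hDr hW0
  have hR0 : 0 ≤ R := by rw [hR]; positivity
  constructor
  · rintro ⟨U, V, hUV⟩
    have hbase : tot m n R κ δ' (rcd rs) (ccd cs) kd U V ≤ 2 * R * ((m : ℝ) + n + 1) := by
      refine hUV.le.trans ?_
      have h1 : ((nun m (rcd rs) + nun n (ccd cs) : ℕ) : ℝ) ≤ 3 * (m + n) := by
        have := nun_le m (rcd rs)
        have := nun_le n (ccd cs)
        have h3 : nun m (rcd rs) + nun n (ccd cs) ≤ 3 * (m + n) := by omega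
        exact_mod_cast h3
      have h2 : (nng m n kd : ℝ) ≤ m * n := by exact_mod_cast nng_le m n kd
      exact num_base (Nat.cast_nonneg _) (Nat.cast_nonneg _) hRW hκ0.le hκ8 (Nat.cast_nonneg _)
        h1 h2
    obtain ⟨U', V', hU', hV', htot, -, hVs⟩ := he1 m n R κ δ' (rcd rs) (ccd cs) kd U V hRW
      hκ0.le hκ8 hδ0.le hδ1 hbase
    rw [hix m n R κ δ' _ _ _ U' V' hU' hV'] at htot
    obtain ⟨r, w, hr, hw, hrw⟩ := he2 m n R κ δ' (rcd rs) (ccd cs) kd
      (fun a s => U' (6 + 2 * a + s)) (fun b t => V' (6 + 2 * b + t)) hRW hκ0.le hκ8 hδ0.le hδ1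
      hVs
    have h3 := he3 m n R κ δ' (rcd rs) (ccd cs) kd r w hR0 hκ0.le hκ8 hδ0.le hδ1 hr hw
    have hPsi : Psi m n kd r w < 0 := by linarith
    have hκm : κ * (6 * ((rws N L).length * (cls1 N).length)) ≤ 1 := by
      rw [hκ', div_mul_eq_mul_div, one_mul, div_le_one hKp]
      have h1 : ((K : ℕ) : ℝ) = 8 * (m * n) := by rw [hKd]; push_cast; ring
      have h2 : (0 : ℝ) ≤ m * n := by positivity
      rw [h1]
      change 6 * ((m : ℝ) * n) ≤ _
      linarith
    obtain ⟨Γ, r', w', hΓ0, hr', hw', hdot, hneg, hΓ⟩ := hvea N L hN1 κ δ' hκ0 hδ0 hκm r w hr hw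
      hPsi
    -- the approximate run
    set X : Gt → Fin 3 → ℝ := fun g => if g = (4, N - 1, N - 1, N - 1) then r' (N - 1)
      else r' (rs.idxOf g) with hX
    set c : ℕ → ℝ := fun k => X (4, k, k, k) 0 with hc
    have hXi : ∀ g ∈ rs, ∃ a < m, rs.getD a (0, 0, 0, 0) = g ∧ X g = r' a := by
      intro g hg
      by_cases h1 : g = (4, N - 1, N - 1, N - 1)
      · refine ⟨N - 1, by omega, ?_, ?_⟩
        · rw [h1]; exact getD_rws (by omega)
        · simp only [hX, if_pos h1]
      · exact ⟨rs.idxOf g, List.idxOf_lt_length_of_mem hg, getD_idx hg, by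
          simp only [hX, if_neg h1]⟩
    have hcsub : ∀ b ∈ cls N, b ∈ cs := fun b hb => List.mem_append_left _ hb
    have hrb : ∀ g ∈ rs, ∀ l : Fin 3, InBox κ δ' κ (rsp g l) (X g l) := by
      intro g hg l
      obtain ⟨a, ha, h1, h2⟩ := hXi g hg
      have h3 := hr' a ha l
      unfold rcd at h3
      rw [h1] at h3
      rw [h2]
      exact h3
    have key := hveb N L hB κ δ' κ Γ hκ0.le hΓ0 X (fun c => w' (cs.idxOf c)) hrb ?_ ?_
    rotate_left
    · intro b hb l
      have hb' := hcsub b hb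
      have h1 := hw' _ (List.idxOf_lt_length_of_mem hb') l
      unfold ccd at h1
      rw [getD_idx hb'] at h1
      exact h1
    · intro g hg b hb
      have hb' := hcsub b (gset_sub hB hg hb)
      obtain ⟨a, ha, h1, h2⟩ := hXi g hg
      rw [h2]
      refine hdot a ha _ (List.idxOf_lt_length_of_mem hb') ?_
      unfold isG
      rw [h1, getD_idx hb']
      simp [hb]
    have hcN : c (N - 1) = r' (N - 1) 0 := by simp only [hc, hX, if_true]
    have hcb : ∀ k < N, |c k| ≤ κ := by
      intro k hk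
      have h1 := hrb (4, k, k, k) (mem_rws.2 (Or.inl ⟨k, hk, rfl⟩)) 0
      unfold InBox rsp at h1
      norm_num at h1
      exact h1
    have hΓb : (N : ℝ) * Γ ≤ 8 / 100 * (-(c (N - 1))) := by
      rw [hcN]
      have h1 : (N : ℝ) * (8 * δ') ≤ 8 / 100 := by
        have h4 : (D : ℝ) = 100 * ((N : ℝ) + 1) := by rw [hDd]; push_cast; ring
        rw [hδ', h4]
        exact num_delta (Nat.cast_nonneg N)
      calc (N : ℝ) * Γ ≤ N * (-8 * δ' * r' (N - 1) 0) :=
            mul_le_mul_of_nonneg_left hΓ (Nat.cast_nonneg _)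
        _ = (N * (8 * δ')) * (-(r' (N - 1) 0)) := by ring
        _ ≤ 8 / 100 * (-(r' (N - 1) 0)) := mul_le_mul_of_nonneg_right h1 (by linarith)
    have hLN : (L.length : ℝ) ≤ N := by
      have : L.length ≤ N := by omega
      exact_mod_cast this
    have hη : (L.length : ℝ) * ((2 + 2 * κ) * Γ) ≤ 1 / 4 * (-(c (N - 1))) := by
      calc (L.length : ℝ) * ((2 + 2 * κ) * Γ) ≤ N * ((9 / 4) * Γ) := by
            apply mul_le_mul hLN _ (by positivity) (Nat.cast_nonneg _)
            exact mul_le_mul_of_nonneg_right (by linarith) hΓ0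
        _ = 9 / 4 * (N * Γ) := by ring
        _ ≤ 9 / 4 * (8 / 100 * (-(c (N - 1)))) := by linarith
        _ ≤ 1 / 4 * (-(c (N - 1))) := by
            have : c (N - 1) < 0 := by rw [hcN]; exact hneg
            linarith
    have hcneg : c (N - 1) < 0 := by rw [hcN]; exact hneg
    have hcle : -(c (N - 1)) ≤ κ := by
      have h1 := hcb (N - 1) (by omega)
      rw [abs_of_neg hcneg] at h1
      exact h1
    obtain ⟨v, hv1, hv2, hv3⟩ := hrun N₀ L hW κ ((2 + 2 * κ) * Γ) c (by positivity)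
      (fun k hk => (hcb k (by omega)).trans (by linarith)) (fun g hg => key g hg) (by linarith)
    refine ⟨v, hv2, fun k hk => ?_, ?_⟩
    · rw [hv1 k hk]; exact hcb k (by omega)
    · have h1 := hv3 (N - 1) (by omega)
      have h2 := (abs_le.1 h1).2
      linarith
  · rintro ⟨v, hv, hv0, hvN⟩
    have hvb := hbdd N₀ L hW κ v hκ0.le (by linarith) hv hv0
    have hv' := hld_cut hB hv
    set v' : ℕ → ℝ := fun k => if k < N then v k else 0 with hv'd
    have hbd : ∀ k, |v' k| ≤ κ := by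
      intro k
      by_cases hk : k < N
      · simp only [hv'd, if_pos hk]
        exact hvb k (by omega)
      · simp only [hv'd, if_neg hk, abs_zero]
        exact hκ0.le
    set r : ℕ → Fin 3 → ℝ := fun a => rvec κ v' (rs.getD a (0, 0, 0, 0)) with hrd
    set w : ℕ → Fin 3 → ℝ := fun b => cvec δ' v' (cs.getD b (0, 0)) with hwd
    have hr : ∀ a < m, ∀ s < 2, ∀ l : Fin 3, InBox κ δ' κ (rcd rs a l) (r a l) := by
      intro a ha s _ l
      exact (hvc κ δ' κ v' (rs.getD a (0, 0, 0, 0))).2.1 (le5_rws hB (getD_mem_rws ha)) hbd l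
    have hw : ∀ a < n, ∀ s < 2, ∀ l : Fin 3, InBox κ δ' κ (ccd cs a l) (w a l) := by
      intro a ha s _ l
      exact (hvc κ δ' κ v' (0, 0, 0, 0)).2.2 hbd (cs.getD a (0, 0)) l
    have hdot : ∀ a < rs.length, ∀ b < cs.length, isG rs cs a b = true →
        dot (r a) (w b) = 0 := by
      intro a ha b hb hG
      unfold isG at hG
      have h1 := of_decide_eq_true hG
      refine (hvc κ δ' κ v' _).1 ?_ _ h1
      intro h3
      have hmem : rs.getD a (0, 0, 0, 0) ∈ rs := by
        rw [List.getD_eq_getElem _ _ ha]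
        exact List.getElem_mem _
      rcases mem_rws.1 hmem with ⟨j, _, hj⟩ | ⟨j, _, hj⟩ | h4
      · rw [← hj] at h3; norm_num at h3
      · rw [← hj] at h3; norm_num at h3
      · exact hv' _ h4
    have hpsi := hps N L hN1 r w hdot
    have htarget : dot (r (N - 1)) (w (n - 1)) = δ' * v (N - 1) := by
      have h1 : rs.getD (N - 1) (0, 0, 0, 0) = (4, N - 1, N - 1, N - 1) := getD_rws (by omega)
      have h2 : cs.getD (n - 1) (0, 0) = (6, 0) := by
        rw [hcs, hnN]
        unfold cls1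
        rw [List.getD_append_right _ _ _ _ (by rw [length_cls]; omega), length_cls]
        norm_num
      simp only [hrd, hwd, h1, h2]
      unfold rvec cvec dot
      simp [hv'd, show N - 1 < N by omega]
      ring
    have h3 := he3 m n R κ δ' (rcd rs) (ccd cs) kd (fun a _ => r a) (fun b _ => w b) hR0 hκ0.le
      hκ8 hδ0.le hδ1 hr hw
    refine ⟨ext R r, ext R w, ?_⟩
    rw [hix m n R κ δ' _ _ _ _ _ (exact_ext R r) (exact_ext R w)]
    have hco : costV m n R κ δ' (rcd rs) (ccd cs) kd (fun a s => ext R r (6 + 2 * a + s))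
        (fun b t => ext R w (6 + 2 * b + t)) =
        costV m n R κ δ' (rcd rs) (ccd cs) kd (fun a _ => r a) (fun b _ => w b) := by
      apply costV_congr
      · intro a _ s hs
        unfold ext
        rw [if_neg (by omega)]
        congr 1
        omega
      · intro a _ s hs
        unfold ext
        rw [if_neg (by omega)]
        congr 1
        omega
    rw [hco, h3]
    have h5 : Psi m n kd (fun a _ => r a) (fun b _ => w b) = 4 * (δ' * v (N - 1)) := by
      rw [← htarget]; exact hpsi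
    rw [h5]
    have h6 : δ' * v (N - 1) < 0 := mul_neg_of_pos_of_neg hδ0 hvN
    linarith

/-- **The reduction for `p = 1` is correct.** -/
theorem red1_iff (hwf : S_WF) (hslp : S_SLP) (hrun : S_RUN) (hbdd : S_BDD) (hvc : SVC)
    (hveb : S_VEB) (hvea : S_VEA) (hps : S_PS1) (htb : S_TB) (hix : S_IX) (he1 : S_E1)
    (he2 : S_E2) (he3 : S_E3) (hez : S_EZ) (S : List Con) : Sat S ↔ LRA1 (red1 S) := by
  unfold red1
  have h1 := (hwf (bsys S)).1
  have h2 := (hwf (bsys S)).2
  rw [slp1_iff hrun hbdd hvc hveb hvea hps htb hix he1 he2 he3 hez h1 h2 (by omega) rfl]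
  have hm := length_rws (out1 (bsys S) + 1) (gates1 (bsys S))
  have hn := length_cls1 (out1 (bsys S) + 1)
  have hK : (8 : ℝ) ≤ ((8 * (rws (out1 (bsys S) + 1) (gates1 (bsys S))).length *
      (cls1 (out1 (bsys S) + 1)).length : ℕ) : ℝ) := by
    have h3 : 1 ≤ (rws (out1 (bsys S) + 1) (gates1 (bsys S))).length := by omega
    have h4 : 1 ≤ (cls1 (out1 (bsys S) + 1)).length := by omega
    have h5 : 8 ≤ 8 * (rws (out1 (bsys S) + 1) (gates1 (bsys S))).length *
      (cls1 (out1 (bsys S) + 1)).length := by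
      calc 8 = 8 * 1 * 1 := rfl
        _ ≤ _ := Nat.mul_le_mul (Nat.mul_le_mul_left _ h3) h4
    exact_mod_cast h5
  exact hslp S _ (one_div_pos.2 (lt_of_lt_of_le (by norm_num) hK))
    (one_div_le_one_div_of_le (by norm_num) hK)

/-- The reduction for `p = 1` is computable in polynomial time. -/
theorem poly_red1 (hpg : S_PG) (hpr : S_PR) (hpi : S_PI1) : Poly red1 := by
  have hN : UPoly (fun S : List Con => out1 (bsys S) + 1) := hpg.2.2.2
  have h1 : Poly (fun S : List Con => rws (out1 (bsys S) + 1) (gates1 (bsys S))) :=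
    hpr.1 (fun S => out1 (bsys S) + 1) (fun S => gates1 (bsys S)) hN hpg.2.2.1
  have h2 : Poly (fun S : List Con => cls1 (out1 (bsys S) + 1)) :=
    (hpr.2.1 (fun S => out1 (bsys S) + 1) hN).2
  have hm := UPoly.length h1
  have hn := UPoly.length h2
  have hcod := hpr.2.2 (fun p : List Con × ℕ × ℕ => out1 (bsys p.1) + 1)
    (fun p => rws (out1 (bsys p.1) + 1) (gates1 (bsys p.1)))
    (fun p => cls1 (out1 (bsys p.1) + 1)) (fun p => p.2.1) (fun p => p.2.2)
    (UPoly.toPoly hN |>.comp (Poly.fst Poly.id)) (h1.comp (Poly.fst Poly.id))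
    (h2.comp (Poly.fst Poly.id)) (Poly.fst (Poly.snd Poly.id)) (Poly.snd (Poly.snd Poly.id))
  have hsq : Poly (fun S : List Con => ((rws (out1 (bsys S) + 1) (gates1 (bsys S))).length +
      (cls1 (out1 (bsys S) + 1)).length + 1) ^ 2) := by
    have h3 := ((UPoly.toPoly hm).add (UPoly.toPoly hn)).succ
    exact (h3.mul h3).congr fun S => (sq _).symm
  exact hpi _ _ (fun S => 8 * (rws (out1 (bsys S) + 1) (gates1 (bsys S))).length *
      (cls1 (out1 (bsys S) + 1)).length) (fun S => 100 * (out1 (bsys S) + 1 + 1))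
    (fun S => 10 ^ 4 * ((rws (out1 (bsys S) + 1) (gates1 (bsys S))).length +
      (cls1 (out1 (bsys S) + 1)).length + 1) ^ 2)
    (fun S => rcd (rws (out1 (bsys S) + 1) (gates1 (bsys S))))
    (fun S => ccd (cls1 (out1 (bsys S) + 1)))
    (fun S => knd (out1 (bsys S) + 1) (rws (out1 (bsys S) + 1) (gates1 (bsys S)))
      (cls1 (out1 (bsys S) + 1)))
    hm hn (Poly.mul (Poly.mul (Pool.Agent.NPC.Poly.const 8) (UPoly.toPoly hm)) (UPoly.toPoly hn))
    (Poly.mul (Pool.Agent.NPC.Poly.const 100) (UPoly.toPoly hN).succ) (Poly.mul (Pool.Agent.NPC.Poly.const _) hsq)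
    hcod.1 hcod.2.1 hcod.2.2.1

end Pool.Agent.Q230.LR
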