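import Pool.Agent.Q230.LR.PT

/-!
# Project LR: the instances are computable in polynomial time
-/

set_option autoImplicit false

namespace Pool.Agent.Q230.LR

open Pool.Agent.NPC Pool.Agent.NPC.ER

section

variable {α : Type} [TEnc α]

theorem poly_tab {M K : α → ℕ} {f : α → ℕ → ℕ → ℚ} (hM : UPoly M) (hK : UPoly K)
    (hf : P (fun p : α × ℕ × ℕ => f p.1 p.2.1 p.2.2)) :
    P (fun a => tab (M a) (K a) (f a)) := by
  unfold tab
  refine Pool.Agent.NPC.Poly.map (F := fun (a : α) (i : ℕ) =>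
    (List.range (K a)).map fun j => f a i j) hM.range ?_
  refine Pool.Agent.NPC.Poly.map (F := fun (p : α × ℕ) (j : ℕ) => f p.1 p.2 j)
    (hK.range.comp (Poly.fst Poly.id)) ?_
  exact hf.comp (g := fun p : α × ℕ × ℕ => f p.1 p.2.1 p.2.2)
    (f := fun q : (α × ℕ) × ℕ => (q.1.1, q.1.2, q.2))
    (Poly.pair (Poly.fst (Poly.fst Poly.id)) (Poly.pair (Poly.snd (Poly.fst Poly.id))
      (Poly.snd Poly.id)))

theorem poly_natToRat {k : α → ℕ} (hk : P k) : P (fun a => ((k a : ℕ) : ℚ)) := by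
  have h : P (fun a => (((k a : ℕ) : ℤ), (1 : ℕ))) :=
    Poly.pair (Poly.natCast hk) (Pool.Agent.NPC.Poly.const 1)
  have h2 : P (fun a => (((k a : ℕ) : ℚ).num, ((k a : ℕ) : ℚ).den)) := h.congr fun a => by simp
  exact h2

theorem poly_inv {k : α → ℕ} (hk : P k) (h0 : ∀ a, 0 < k a) :
    P (fun a => (1 / ((k a : ℕ) : ℚ))) := by
  have h : P (fun a => ((1 : ℤ), k a)) := Poly.pair (Pool.Agent.NPC.Poly.const 1) hk
  have h2 : P (fun a => ((1 / ((k a : ℕ) : ℚ)).num, (1 / ((k a : ℕ) : ℚ)).den)) := by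
    refine h.congr fun a => ?_
    have h3 : (1 / ((k a : ℕ) : ℚ)) = ((k a : ℕ) : ℚ)⁻¹ := one_div _
    rw [h3, Rat.inv_natCast_num, Rat.inv_natCast_den]
    have h4 := h0 a
    simp [Int.sign_eq_one_of_pos (show (0 : ℤ) < (k a : ℤ) by omega)]
    omega
  exact h2

theorem poly_optGetD {β : Type} [TEnc β] {o : α → Option β} {d : α → β} (ho : P o) (hd : P d) :
    P (fun a => (o a).getD (d a)) := by
  refine (Poly.optCases (g := d) (h := fun _ b => b) ho hd (Poly.snd Poly.id)).congr fun a => ?_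
  cases o a <;> rfl

theorem upoly_nst {m n : α → ℕ} {F : α → ℕ → ℕ → Option ℚ} (hm : UPoly m) (hn : UPoly n)
    (hF : P (fun p : α × ℕ × ℕ => F p.1 p.2.1 p.2.2)) : UPoly (fun a => nst (m a) (n a) (F a)) := by
  unfold nst
  refine UPoly.length (Poly.flatMap (F := fun (a : α) (i : ℕ) =>
    (List.range (n a)).filter fun j => (F a i j).isNone) hm.range ?_)
  refine Poly.filter (p := fun (p : α × ℕ) (j : ℕ) => (F p.1 p.2 j).isNone)
    (hn.range.comp (Poly.fst Poly.id)) ?_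
  have h1 := hF.comp (g := fun p : α × ℕ × ℕ => F p.1 p.2.1 p.2.2)
    (f := fun q : (α × ℕ) × ℕ => (q.1.1, q.1.2, q.2))
    (Poly.pair (Poly.fst (Poly.fst Poly.id)) (Poly.pair (Poly.snd (Poly.fst Poly.id))
      (Poly.snd Poly.id)))
  refine (Poly.not (Poly.isSome h1)).congr fun q => ?_
  simp only
  cases F q.1.1 q.1.2 q.2 <;> rfl

theorem poly_inst0 {m n : α → ℕ} {F : α → ℕ → ℕ → Option ℚ} (hm : UPoly m) (hn : UPoly n)
    (hF : P (fun p : α × ℕ × ℕ => F p.1 p.2.1 p.2.2)) :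
    P (fun a => inst0 (m a) (n a) (F a)) := by
  have hs := upoly_nst hm hn hF
  have h1 : UPoly (fun a => cp1 (nst (m a) (n a) (F a))) :=
    UPoly.add (UPoly.mul (UPoly.const 6) hs) (UPoly.const 1)
  have h2 : UPoly (fun a => cp2 (nst (m a) (n a) (F a))) := by
    have h := UPoly.mul (UPoly.mul (UPoly.mul (UPoly.mul h1 h1) h1) h1) h1
    have e : (fun a => cp1 (nst (m a) (n a) (F a)) * cp1 (nst (m a) (n a) (F a)) *
        cp1 (nst (m a) (n a) (F a)) * cp1 (nst (m a) (n a) (F a)) *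
        cp1 (nst (m a) (n a) (F a))) = fun a => cp2 (nst (m a) (n a) (F a)) := by
      funext a
      unfold cp1 cp2
      ring
    rw [← e]
    exact h
  refine Poly.pair ?_ (Poly.pair (Pool.Agent.NPC.Poly.const 3) ?_)
  · refine poly_tab (f := fun a => blow (nst (m a) (n a) (F a)) (F a)) (UPoly.mul h1 hm)
      (UPoly.mul h2 hn) ?_
    have a1 : P (fun p : α × ℕ × ℕ => p.1) := Poly.fst Poly.id
    have i1 : P (fun p : α × ℕ × ℕ => p.2.1) := Poly.fst (Poly.snd Poly.id)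
    have j1 : P (fun p : α × ℕ × ℕ => p.2.2) := Poly.snd (Poly.snd Poly.id)
    have c1 : P (fun p : α × ℕ × ℕ => cp1 (nst (m p.1) (n p.1) (F p.1))) := h1.toPoly.comp a1
    have c2 : P (fun p : α × ℕ × ℕ => cp2 (nst (m p.1) (n p.1) (F p.1))) := h2.toPoly.comp a1
    have hcell := hF.comp (g := fun p : α × ℕ × ℕ => F p.1 p.2.1 p.2.2)
      (f := fun p : α × ℕ × ℕ => (p.1, p.2.1 / cp1 (nst (m p.1) (n p.1) (F p.1)),
        p.2.2 / cp2 (nst (m p.1) (n p.1) (F p.1))))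
      (Poly.pair a1 (Poly.pair (Poly.div i1 c1) (Poly.div j1 c2)))
    exact poly_optGetD hcell (poly_inv (Poly.succ (Poly.add (Poly.mod i1 c1) (Poly.mod j1 c2)))
      fun _ => Nat.succ_pos _)
  · exact poly_natToRat (Poly.succ (Poly.mul hs.toPoly (Poly.mul h1.toPoly h2.toPoly)))

/-! ### The case `p = 1` -/

theorem upoly_nun {m : α → ℕ} {rc : α → ℕ → ℕ → ℕ} (hm : UPoly m)
    (hr : P (fun p : α × ℕ × ℕ => rc p.1 p.2.1 p.2.2)) : UPoly (fun a => nun (m a) (rc a)) := by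
  unfold nun
  refine UPoly.length (Poly.flatMap (F := fun (a : α) (i : ℕ) =>
    (List.range 3).filter fun l => decide (rc a i l = 0)) hm.range ?_)
  refine Poly.filter (p := fun (p : α × ℕ) (l : ℕ) => decide (rc p.1 p.2 l = 0))
    (Pool.Agent.NPC.Poly.const _) ?_
  have h1 := hr.comp (g := fun p : α × ℕ × ℕ => rc p.1 p.2.1 p.2.2)
    (f := fun q : (α × ℕ) × ℕ => (q.1.1, q.1.2, q.2))
    (Poly.pair (Poly.fst (Poly.fst Poly.id)) (Poly.pair (Poly.snd (Poly.fst Poly.id))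
      (Poly.snd Poly.id)))
  exact Poly.decide_eq h1 (Pool.Agent.NPC.Poly.const 0)

theorem upoly_nng {m n : α → ℕ} {kd : α → ℕ → ℕ → ℕ} (hm : UPoly m) (hn : UPoly n)
    (hr : P (fun p : α × ℕ × ℕ => kd p.1 p.2.1 p.2.2)) :
    UPoly (fun a => nng (m a) (n a) (kd a)) := by
  unfold nng
  refine UPoly.length (Poly.flatMap (F := fun (a : α) (i : ℕ) =>
    (List.range (n a)).filter fun l => decide (kd a i l ≠ 0)) hm.range ?_)
  refine Poly.filter (p := fun (p : α × ℕ) (l : ℕ) => decide (kd p.1 p.2 l ≠ 0))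
    (hn.range.comp (Poly.fst Poly.id)) ?_
  have h1 := hr.comp (g := fun p : α × ℕ × ℕ => kd p.1 p.2.1 p.2.2)
    (f := fun q : (α × ℕ) × ℕ => (q.1.1, q.1.2, q.2))
    (Poly.pair (Poly.fst (Poly.fst Poly.id)) (Poly.pair (Poly.snd (Poly.fst Poly.id))
      (Poly.snd Poly.id)))
  exact Poly.decide_not (Poly.decide_eq h1 (Pool.Agent.NPC.Poly.const 0))

theorem poly_spz {K D W c : α → ℕ} (hK : P K) (hD : P D) (hW : P W) (hc : P c) :
    P (fun a => spz (K a) (D a) (W a) (c a)) := by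
  have k : ∀ n : ℕ, P (fun _ : α => n) := fun n => Pool.Agent.NPC.Poly.const n
  have e : ∀ n : ℕ, P (fun a => decide (c a = n)) := fun n => Poly.decide_eq hc (k n)
  have h16 := Poly.natCast (Poly.mul (Poly.mul (Poly.mul (k 16) hK) hD) hW)
  have h8 := Poly.natCast (Poly.mul (Poly.mul (Poly.mul (k 8) hK) hD) hW)
  have g16 := Poly.natCast (Poly.mul (Poly.mul (k 16) hD) hW)
  have g2 := Poly.natCast (Poly.mul (Poly.mul (k 2) hD) hW)
  have f16 := Poly.natCast (Poly.mul (Poly.mul (k 16) hK) hW)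
  exact Poly.ite (e 2) h16 (Poly.ite (e 3) (Poly.ineg h16) (Poly.ite (e 4) h8
    (Poly.ite (e 5) g16 (Poly.ite (e 6) g2 (Poly.ite (e 7) f16
      (Pool.Agent.NPC.Poly.const 0))))))

theorem poly_ent1z {K D W i j : α → ℕ} {rc cc kd : α → ℕ → ℕ → ℕ} (hK : P K) (hD : P D)
    (hW : P W) (hr : P (fun p : α × ℕ × ℕ => rc p.1 p.2.1 p.2.2))
    (hc : P (fun p : α × ℕ × ℕ => cc p.1 p.2.1 p.2.2))
    (hk : P (fun p : α × ℕ × ℕ => kd p.1 p.2.1 p.2.2)) (hi : P i) (hj : P j) :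
    P (fun a => ent1z (K a) (D a) (W a) (rc a) (cc a) (kd a) (i a) (j a)) := by
  have k : ∀ n : ℕ, P (fun _ : α => n) := fun n => Pool.Agent.NPC.Poly.const n
  have z : ∀ n : ℤ, P (fun _ : α => n) := fun n => Pool.Agent.NPC.Poly.const n
  have hR : P (fun a => 16 * K a * D a * W a) :=
    Poly.mul (Poly.mul (Poly.mul (k 16) hK) hD) hW
  have hR2 : P (fun a => ((((16 * K a * D a * W a) ^ 2 : ℕ)) : ℤ)) :=
    Poly.natCast ((Poly.mul hR hR).congr fun a => (sq _).symm)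
  have g16 : P (fun a => ((16 * D a * W a : ℕ) : ℤ)) :=
    Poly.natCast (Poly.mul (Poly.mul (k 16) hD) hW)
  have i2 := Poly.div hi (k 2)
  have j2 := Poly.div hj (k 2)
  have i6 := Poly.div (Poly.sub hi (k 6)) (k 2)
  have j6 := Poly.div (Poly.sub hj (k 6)) (k 2)
  have im := Poly.mod hi (k 2)
  have jm := Poly.mod hj (k 2)
  have hc' : P (fun a => cc a ((j a - 6) / 2) (i a / 2)) :=
    hc.comp (g := fun p : α × ℕ × ℕ => cc p.1 p.2.1 p.2.2)
      (f := fun a => (a, (j a - 6) / 2, i a / 2)) (Poly.pair Poly.id (Poly.pair j6 i2))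
  have hr' : P (fun a => rc a ((i a - 6) / 2) (j a / 2)) :=
    hr.comp (g := fun p : α × ℕ × ℕ => rc p.1 p.2.1 p.2.2)
      (f := fun a => (a, (i a - 6) / 2, j a / 2)) (Poly.pair Poly.id (Poly.pair i6 j2))
  have hk' : P (fun a => kd a ((i a - 6) / 2) ((j a - 6) / 2)) :=
    hk.comp (g := fun p : α × ℕ × ℕ => kd p.1 p.2.1 p.2.2)
      (f := fun a => (a, (i a - 6) / 2, (j a - 6) / 2)) (Poly.pair Poly.id (Poly.pair i6 j6))
  exact Poly.ite (Poly.decide_lt hi (k 6))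
    (Poly.ite (Poly.decide_lt hj (k 6)) (Poly.ite (Poly.decide_eq i2 j2) hR2 (z 0))
      (Poly.ite (Poly.decide_eq hc' (k 0)) (Poly.ite (Poly.decide_eq im (k 0)) (Poly.ineg g16) g16)
        (poly_spz hK hD hW hc')))
    (Poly.ite (Poly.decide_lt hj (k 6))
      (Poly.ite (Poly.decide_eq hr' (k 0)) (Poly.ite (Poly.decide_eq jm (k 0)) (Poly.ineg g16) g16)
        (poly_spz hK hD hW hr'))
      (Poly.ite (Poly.decide_eq hk' (k 0)) (z 0) (Poly.ite (Poly.decide_eq hk' (k 2)) (z (-3))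
        (Poly.ite (Poly.decide_eq im jm) (z 3) (z (-3))))))

theorem poly_inst1 {m n K D W : α → ℕ} {rc cc kd : α → ℕ → ℕ → ℕ} (hm : UPoly m)
    (hn : UPoly n) (hK : P K) (hD : P D) (hW : P W)
    (hr : P (fun p : α × ℕ × ℕ => rc p.1 p.2.1 p.2.2))
    (hc : P (fun p : α × ℕ × ℕ => cc p.1 p.2.1 p.2.2))
    (hk : P (fun p : α × ℕ × ℕ => kd p.1 p.2.1 p.2.2)) :
    P (fun a => inst1 (m a) (n a) (K a) (D a) (W a) (rc a) (cc a) (kd a)) := by
  have k : ∀ n : ℕ, P (fun _ : α => n) := fun n => Pool.Agent.NPC.Poly.const n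
  refine Poly.pair ?_ (Poly.pair (k 3) ?_)
  · refine poly_tab (f := fun a i j =>
      ((ent1z (K a) (D a) (W a) (rc a) (cc a) (kd a) i j : ℤ) : ℚ))
      (UPoly.add (UPoly.const 6) (UPoly.mul (UPoly.const 2) hm))
      (UPoly.add (UPoly.const 6) (UPoly.mul (UPoly.const 2) hn)) ?_
    refine H78TSV.poly_intToRat ?_
    have a1 : P (fun p : α × ℕ × ℕ => p.1) := Poly.fst Poly.id
    have up : ∀ {f : α → ℕ → ℕ → ℕ}, P (fun p : α × ℕ × ℕ => f p.1 p.2.1 p.2.2) →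
        P (fun q : (α × ℕ × ℕ) × ℕ × ℕ => f q.1.1 q.2.1 q.2.2) := fun {f} hf =>
      hf.comp (g := fun p : α × ℕ × ℕ => f p.1 p.2.1 p.2.2)
        (f := fun q : (α × ℕ × ℕ) × ℕ × ℕ => (q.1.1, q.2.1, q.2.2))
        (Poly.pair (Poly.fst (Poly.fst Poly.id)) (Poly.snd Poly.id))
    exact poly_ent1z (rc := fun p : α × ℕ × ℕ => rc p.1) (cc := fun p : α × ℕ × ℕ => cc p.1)
      (kd := fun p : α × ℕ × ℕ => kd p.1) (hK.comp a1) (hD.comp a1) (hW.comp a1) (up hr) (up hc)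
      (up hk) (Poly.fst (Poly.snd Poly.id)) (Poly.snd (Poly.snd Poly.id))
  · exact poly_natToRat (Poly.add (Poly.mul (Poly.mul (Poly.mul (k 64) hD) hW)
      (Poly.add (upoly_nun hm hr).toPoly (upoly_nun hn hc).toPoly))
      (Poly.mul (k 12) (upoly_nng hm hn hk).toPoly))

end

theorem pi0 : S_PI0 := fun {_} [_] _ _ _ hm hn hF => poly_inst0 hm hn hF

theorem pi1 : S_PI1 := fun {_} [_] _ _ _ _ _ _ _ _ hm hn hK hD hW hr hc hk =>
  poly_inst1 hm hn hK hD hW hr hc hk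

end Pool.Agent.Q230.LR
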