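import Pool.Agent.Q230.LR.St
import Pool.Agent.H78R3.TSV.Time

/-!
# Project LR: polynomial time
-/

set_option autoImplicit false

namespace Pool.Agent.Q230.LR

open Pool.Agent.NPC Pool.Agent.NPC.ER

section

variable {α : Type} [TEnc α]

abbrev P {β : Type} [TEnc β] (f : α → β) : Prop := Pool.Agent.NPC.Poly f

theorem gt4 {t i j k : α → ℕ} (ht : P t) (hi : P i) (hj : P j) (hk : P k) :
    P (fun a => ((t a, i a, j a, k a) : Gt)) :=
  Poly.pair ht (Poly.pair hi (Poly.pair hj hk))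

theorem one1 {β : Type} [TEnc β] {f : α → β} (hf : P f) : P (fun a => [f a]) :=
  Poly.cons hf (Pool.Agent.NPC.Poly.const [])

theorem upoly_nv {T : α → List Con} (hT : P T) : UPoly (fun a => (svars (T a)).length) :=
  UPoly.length (H78TSV.poly_svars hT)

theorem poly_ri {T : α → List Con} {i : α → ℕ} (hT : P T) (hi : P i) :
    P (fun a => ri (T a) (i a)) := H612.poly_idxOf (H78TSV.poly_svars hT) hi

/-! ### The gates for `p = 0` -/

/-- the gates of a constraint -/
def g0c (S : List Con) (c : Con) (t : ℕ) : List Gt :=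
  if c.code.1 = 0 then [(0, 0, 8, ri S c.code.2.1)]
  else if c.code.1 = 1 then [(1, ri S c.code.2.1, ri S c.code.2.2.1, (svars S).length + 1 + t),
    (1, ri S c.code.2.2.2, (svars S).length, (svars S).length + 1 + t)]
  else [(3, ri S c.code.2.1, ri S c.code.2.2.1, ri S c.code.2.2.2)]

theorem gates0_eq (S : List Con) : gates0 S =
    (0, 0, 0, (svars S).length) :: S.zipIdx.flatMap fun p => g0c S p.1 p.2 := by
  unfold gates0
  congr 1
  congr 1
  funext p
  obtain ⟨c, t⟩ := p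
  cases c <;> rfl

theorem poly_g0c {S : α → List Con} {c : α → Con} {t : α → ℕ} (hS : P S) (hc : P c) (ht : P t) :
    P (fun a => g0c (S a) (c a) (t a)) := by
  have h0 : P (fun a => (c a).code) := poly_con_code hc
  have hi := poly_ri hS (Poly.fst (Poly.snd h0))
  have hj := poly_ri hS (Poly.fst (Poly.snd (Poly.snd h0)))
  have hk := poly_ri hS (Poly.snd (Poly.snd (Poly.snd h0)))
  have hn : P (fun a => (svars (S a)).length) := (upoly_nv hS).toPoly
  have hq : P (fun a => (svars (S a)).length + 1 + t a) :=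
    Poly.add (Poly.add hn (Pool.Agent.NPC.Poly.const 1)) ht
  have k0 : P (fun _ : α => (0 : ℕ)) := Pool.Agent.NPC.Poly.const 0
  have k1 : P (fun _ : α => (1 : ℕ)) := Pool.Agent.NPC.Poly.const 1
  have k3 : P (fun _ : α => (3 : ℕ)) := Pool.Agent.NPC.Poly.const 3
  have k8 : P (fun _ : α => (8 : ℕ)) := Pool.Agent.NPC.Poly.const 8
  exact Poly.ite (Poly.decide_eq (Poly.fst h0) k0) (one1 (gt4 k0 k0 k8 hi))
    (Poly.ite (Poly.decide_eq (Poly.fst h0) k1)
      (Poly.cons (gt4 k1 hi hj hq) (one1 (gt4 k1 hk hn hq)))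
      (one1 (gt4 k3 hi hj hk)))

theorem poly_gates0 : P gates0 := by
  have hS : P (fun S : List Con => S) := Pool.Agent.NPC.Poly.id
  have hn : P (fun S : List Con => (svars S).length) := (upoly_nv hS).toPoly
  have k0 : P (fun _ : List Con => (0 : ℕ)) := Pool.Agent.NPC.Poly.const 0
  refine Poly.congr (f := fun S : List Con =>
    (0, 0, 0, (svars S).length) :: S.zipIdx.flatMap fun p => g0c S p.1 p.2) ?_
    fun S => (gates0_eq S).symm
  refine Poly.cons (gt4 k0 k0 k0 hn) ?_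
  refine Poly.flatMap (F := fun (S : List Con) (p : Con × ℕ) => g0c S p.1 p.2)
    (Poly.zipIdx hS) ?_
  exact poly_g0c (Poly.fst Poly.id) (Poly.fst (Poly.snd Poly.id)) (Poly.snd (Poly.snd Poly.id))

theorem upoly_num0 : UPoly num0 := by
  have hS : P (fun S : List Con => S) := Pool.Agent.NPC.Poly.id
  exact UPoly.add (UPoly.add (upoly_nv hS) (UPoly.const 1)) (UPoly.length hS)

/-! ### The gates for `p = 1` -/

theorem upoly_sqn {T : α → List Con} (hT : P T) : UPoly (fun a => sqn (T a)) := by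
  have hl := UPoly.length hT
  exact UPoly.add (UPoly.add (UPoly.add (UPoly.mul (UPoly.const 11) hl) (UPoly.const 7)) hl)
    (UPoly.const 5)

theorem upoly_bas {T : α → List Con} (hT : P T) : UPoly (fun a => bas (T a)) :=
  UPoly.add (UPoly.add (upoly_nv hT) (UPoly.const 5)) (upoly_sqn hT)

/-- the first two gates of a block -/
def g1c (T : List Con) (c : Con) (q : ℕ) : List Gt :=
  if c.code.1 = 0 then [(1, ri T c.code.2.1, (svars T).length + 2, q),
    (1, (svars T).length, (svars T).length + 2, q + 1)]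
  else if c.code.1 = 1 then [(1, ri T c.code.2.1, ri T c.code.2.2.1, q),
    (1, ri T c.code.2.2.2, (svars T).length + 2, q + 1)]
  else [(3, ri T c.code.2.1, ri T c.code.2.2.1, q),
    (3, (svars T).length + 1, ri T c.code.2.2.2, q + 1)]

theorem two_eq (T : List Con) (c : Con) (q : ℕ) : two T c q = g1c T c q := by
  cases c <;> rfl

theorem poly_two {T : α → List Con} {c : α → Con} {q : α → ℕ} (hT : P T) (hc : P c) (hq : P q) :
    P (fun a => two (T a) (c a) (q a)) := by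
  have h0 : P (fun a => (c a).code) := poly_con_code hc
  have hi := poly_ri hT (Poly.fst (Poly.snd h0))
  have hj := poly_ri hT (Poly.fst (Poly.snd (Poly.snd h0)))
  have hk := poly_ri hT (Poly.snd (Poly.snd (Poly.snd h0)))
  have hn : P (fun a => (svars (T a)).length) := (upoly_nv hT).toPoly
  have k0 : P (fun _ : α => (0 : ℕ)) := Pool.Agent.NPC.Poly.const 0
  have k1 : P (fun _ : α => (1 : ℕ)) := Pool.Agent.NPC.Poly.const 1
  have k2 : P (fun _ : α => (2 : ℕ)) := Pool.Agent.NPC.Poly.const 2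
  have k3 : P (fun _ : α => (3 : ℕ)) := Pool.Agent.NPC.Poly.const 3
  have hn1 := Poly.add hn k1
  have hn2 := Poly.add hn k2
  have hq1 := Poly.add hq k1
  refine Poly.congr (f := fun a => g1c (T a) (c a) (q a)) ?_ fun a => (two_eq _ _ _).symm
  exact Poly.ite (Poly.decide_eq (Poly.fst h0) k0)
    (Poly.cons (gt4 k1 hi hn2 hq) (one1 (gt4 k1 hn hn2 hq1)))
    (Poly.ite (Poly.decide_eq (Poly.fst h0) k1)
      (Poly.cons (gt4 k1 hi hj hq) (one1 (gt4 k1 hk hn2 hq1)))
      (Poly.cons (gt4 k3 hi hj hq) (one1 (gt4 k3 hn1 hk hq1))))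

theorem poly_blk {T : α → List Con} {c : α → Con} {q : α → ℕ} (hT : P T) (hc : P c) (hq : P q) :
    P (fun a => blk (T a) (c a) (q a)) := by
  have k0 : P (fun _ : α => (0 : ℕ)) := Pool.Agent.NPC.Poly.const 0
  have k1 : P (fun _ : α => (1 : ℕ)) := Pool.Agent.NPC.Poly.const 1
  have k2 : P (fun _ : α => (2 : ℕ)) := Pool.Agent.NPC.Poly.const 2
  have k3 : P (fun _ : α => (3 : ℕ)) := Pool.Agent.NPC.Poly.const 3
  have k4 : P (fun _ : α => (4 : ℕ)) := Pool.Agent.NPC.Poly.const 4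
  have k5 : P (fun _ : α => (5 : ℕ)) := Pool.Agent.NPC.Poly.const 5
  have q1 := Poly.add hq k1
  have q2 := Poly.add hq k2
  have q3 := Poly.add hq k3
  have q4 := Poly.add hq k4
  have q5 := Poly.add hq k5
  have qm := Poly.sub hq k1
  exact Poly.append (poly_two hT hc hq) (Poly.cons (gt4 k2 q1 k0 q2) (Poly.cons (gt4 k1 hq q2 q3)
    (Poly.cons (gt4 k3 q3 q3 q4) (one1 (gt4 k1 qm q4 q5)))))

theorem poly_pre {T : α → List Con} (hT : P T) : P (fun a => pre (T a)) := by
  have hn : P (fun a => (svars (T a)).length) := (upoly_nv hT).toPoly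
  have hs : P (fun a => sqn (T a)) := (upoly_sqn hT).toPoly
  have k0 : P (fun _ : α => (0 : ℕ)) := Pool.Agent.NPC.Poly.const 0
  have k1 : P (fun _ : α => (1 : ℕ)) := Pool.Agent.NPC.Poly.const 1
  have k2 : P (fun _ : α => (2 : ℕ)) := Pool.Agent.NPC.Poly.const 2
  have k3 : P (fun _ : α => (3 : ℕ)) := Pool.Agent.NPC.Poly.const 3
  have k4 : P (fun _ : α => (4 : ℕ)) := Pool.Agent.NPC.Poly.const 4
  have k8 : P (fun _ : α => (8 : ℕ)) := Pool.Agent.NPC.Poly.const 8
  have n1 := Poly.add hn k1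
  have n2 := Poly.add hn k2
  have n3 := Poly.add hn k3
  have n4 := Poly.add hn k4
  have hmid : P (fun a => (List.range (sqn (T a))).map fun j =>
      (((3 : ℕ), if j = 0 then (svars (T a)).length + 1 else (svars (T a)).length + 2 + j,
        if j = 0 then (svars (T a)).length + 1 else (svars (T a)).length + 2 + j,
        (svars (T a)).length + 3 + j) : Gt)) := by
    refine Pool.Agent.NPC.Poly.map (F := fun (a : α) (j : ℕ) =>
      (((3 : ℕ), if j = 0 then (svars (T a)).length + 1 else (svars (T a)).length + 2 + j,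
        if j = 0 then (svars (T a)).length + 1 else (svars (T a)).length + 2 + j,
        (svars (T a)).length + 3 + j) : Gt)) (upoly_sqn hT).range ?_
    have j2 : P (fun p : α × ℕ => p.2) := Poly.snd Poly.id
    have hit : P (fun p : α × ℕ => if p.2 = 0 then (svars (T p.1)).length + 1
        else (svars (T p.1)).length + 2 + p.2) :=
      Poly.ite (Poly.decide_eq j2 (Pool.Agent.NPC.Poly.const 0)) (n1.comp (Poly.fst Poly.id))
        (Poly.add (n2.comp (Poly.fst Poly.id)) j2)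
    exact gt4 (Pool.Agent.NPC.Poly.const 3) hit hit (Poly.add (n3.comp (Poly.fst Poly.id)) j2)
  exact Poly.append (Poly.append
    (Poly.cons (gt4 k0 k0 k1 hn) (Poly.cons (gt4 k0 k0 k8 n1) (one1 (gt4 k0 k0 k0 n2)))) hmid)
    (Poly.cons (gt4 k2 (Poly.add n2 hs) k0 (Poly.add n3 hs))
      (one1 (gt4 k0 k0 k0 (Poly.add n4 hs))))

theorem poly_gates1 {T : α → List Con} (hT : P T) : P (fun a => gates1 (T a)) := by
  have hn : P (fun a => (svars (T a)).length) := (upoly_nv hT).toPoly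
  have hs : P (fun a => sqn (T a)) := (upoly_sqn hT).toPoly
  have hb : P (fun a => bas (T a)) := (upoly_bas hT).toPoly
  have hl : P (fun a => (T a).length) := Poly.length hT
  have k1 : P (fun _ : α => (1 : ℕ)) := Pool.Agent.NPC.Poly.const 1
  have k3 : P (fun _ : α => (3 : ℕ)) := Pool.Agent.NPC.Poly.const 3
  have k6 : P (fun _ : α => (6 : ℕ)) := Pool.Agent.NPC.Poly.const 6
  have ho := Poly.add hb (Poly.mul k6 hl)
  refine Poly.append (Poly.append (poly_pre hT) ?_)
    (one1 (gt4 k1 (Poly.sub ho k1) (Poly.add (Poly.add hn k3) hs) ho))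
  refine Poly.flatMap (F := fun (a : α) (p : Con × ℕ) =>
    blk (T a) p.1 (bas (T a) + 6 * p.2)) (Poly.zipIdx hT) ?_
  exact poly_blk (hT.comp (Poly.fst Poly.id)) (Poly.fst (Poly.snd Poly.id))
    (Poly.add (hb.comp (Poly.fst Poly.id)) (Poly.mul (Pool.Agent.NPC.Poly.const 6)
      (Poly.snd (Poly.snd Poly.id))))

theorem pg : S_PG := by
  have hT : P (fun S : List Con => bsys S) := poly_bsys Pool.Agent.NPC.Poly.id
  refine ⟨poly_gates0, upoly_num0, poly_gates1 hT, ?_⟩
  exact UPoly.add (UPoly.add (upoly_bas hT) (UPoly.mul (UPoly.const 6) (UPoly.length hT)))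
    (UPoly.const 1)

/-! ### Rows, columns, codes -/

theorem poly_rws {N : α → ℕ} {L : α → List Gt} (hN : UPoly N) (hL : P L) :
    P (fun a => rws (N a) (L a)) := by
  have j2 : P (fun p : α × ℕ => p.2) := Poly.snd Poly.id
  refine Poly.append (Poly.append ?_ ?_) hL
  · exact Pool.Agent.NPC.Poly.map (F := fun (_ : α) (j : ℕ) => (((4 : ℕ), j, j, j) : Gt)) hN.range
      (gt4 (Pool.Agent.NPC.Poly.const 4) j2 j2 j2)
  · exact Pool.Agent.NPC.Poly.map (F := fun (_ : α) (j : ℕ) => (((5 : ℕ), j, j, j) : Gt)) hN.range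
      (gt4 (Pool.Agent.NPC.Poly.const 5) j2 j2 j2)

theorem poly_cls {N : α → ℕ} (hN : UPoly N) : P (fun a => cls (N a)) := by
  have j2 : P (fun p : α × ℕ => p.2) := Poly.snd Poly.id
  refine Poly.append ?_ (Pool.Agent.NPC.Poly.const [((4 : ℕ), (0 : ℕ)), ((5 : ℕ), (0 : ℕ))])
  refine Poly.flatMap (F := fun (_ : α) (j : ℕ) =>
    [((0 : ℕ), j), ((1 : ℕ), j), ((2 : ℕ), j), ((3 : ℕ), j)]) hN.range ?_
  exact Poly.cons (Poly.pair (Pool.Agent.NPC.Poly.const 0) j2)
    (Poly.cons (Poly.pair (Pool.Agent.NPC.Poly.const 1) j2)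
    (Poly.cons (Poly.pair (Pool.Agent.NPC.Poly.const 2) j2)
    (one1 (Poly.pair (Pool.Agent.NPC.Poly.const 3) j2))))

theorem poly_cls1 {N : α → ℕ} (hN : UPoly N) : P (fun a => cls1 (N a)) :=
  Poly.append (poly_cls hN) (Pool.Agent.NPC.Poly.const [((6 : ℕ), (0 : ℕ))])

theorem poly_gset {g : α → Gt} (hg : P g) : P (fun a => gset (g a)) := by
  have t := Poly.fst hg
  have i := Poly.fst (Poly.snd hg)
  have j := Poly.fst (Poly.snd (Poly.snd hg))
  have k := Poly.snd (Poly.snd (Poly.snd hg))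
  have c : ∀ {x : α → ℕ} (n : ℕ), P x → P (fun a => ((n, x a) : ℕ × ℕ)) :=
    fun n hx => Poly.pair (Pool.Agent.NPC.Poly.const n) hx
  have e : ∀ n : ℕ, P (fun a => decide ((g a).1 = n)) :=
    fun n => Poly.decide_eq t (Pool.Agent.NPC.Poly.const n)
  have z : P (fun _ : α => (0 : ℕ)) := Pool.Agent.NPC.Poly.const 0
  exact Poly.ite (e 0) (one1 (c 0 k))
    (Poly.ite (e 1) (Poly.cons (c 0 i) (Poly.cons (c 1 j) (one1 (c 2 k))))
    (Poly.ite (e 2) (Poly.cons (c 0 i) (Poly.cons (c 1 k) (one1 (c 5 z))))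
    (Poly.ite (e 3) (Poly.cons (c 0 i) (Poly.cons (c 1 k) (one1 (c 3 j))))
    (Poly.ite (e 4) (Poly.cons (c 0 i) (Poly.cons (c 1 i) (Poly.cons (c 2 i) (one1 (c 4 z)))))
    (Poly.cons (c 1 i) (one1 (c 3 i)))))))

theorem poly_rsp {g : α → Gt} {l : α → ℕ} (hg : P g) (hl : P l) :
    P (fun a => rsp (g a) (l a)) := by
  have t := Poly.fst hg
  have j := Poly.fst (Poly.snd (Poly.snd hg))
  have c : ∀ n : ℕ, P (fun _ : α => n) := fun n => Pool.Agent.NPC.Poly.const n
  have e : ∀ n : ℕ, P (fun a => decide ((g a).1 = n)) := fun n => Poly.decide_eq t (c n)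
  have f : ∀ n : ℕ, P (fun a => decide (l a = n)) := fun n => Poly.decide_eq hl (c n)
  have d : ∀ n : ℕ, P (fun a => decide ((g a).2.2.1 = n)) := fun n => Poly.decide_eq j (c n)
  exact Poly.ite (e 0)
    (Poly.ite (f 0) (Poly.ite (d 8) (c 5) (Poly.ite (d 1) (c 6) (c 1)))
      (Poly.ite (f 1) (c 1) (c 2)))
    (Poly.ite (e 5) (Poly.ite (f 1) (c 0) (c 2)) (Poly.ite (f 2) (c 2) (c 0)))

theorem poly_csp {q : α → ℕ × ℕ} {l : α → ℕ} (hq : P q) (hl : P l) :
    P (fun a => csp (q a) (l a)) := by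
  have t := Poly.fst hq
  have c : ∀ n : ℕ, P (fun _ : α => n) := fun n => Pool.Agent.NPC.Poly.const n
  have e : ∀ n : ℕ, P (fun a => decide ((q a).1 = n)) := fun n => Poly.decide_eq t (c n)
  have f : ∀ n : ℕ, P (fun a => decide (l a = n)) := fun n => Poly.decide_eq hl (c n)
  exact Poly.ite (e 0) (Poly.ite (f 0) (c 2) (Poly.ite (f 1) (c 1) (c 0)))
    (Poly.ite (e 1) (Poly.ite (f 0) (c 1) (Poly.ite (f 1) (c 2) (c 0)))
    (Poly.ite (e 2) (Poly.ite (f 2) (c 0) (c 4))
    (Poly.ite (e 3) (Poly.ite (f 0) (c 0) (Poly.ite (f 1) (c 2) (c 1)))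
    (Poly.ite (e 4) (Poly.ite (f 0) (c 2) (Poly.ite (f 1) (c 3) (c 1)))
    (Poly.ite (e 5) (Poly.ite (f 2) (c 1) (c 2))
    (Poly.ite (f 0) (c 7) (c 1)))))))

theorem poly_rcd {rs : α → List Gt} {i l : α → ℕ} (h : P rs) (hi : P i) (hl : P l) :
    P (fun a => rcd (rs a) (i a) (l a)) :=
  poly_rsp (Poly.getD h hi (Pool.Agent.NPC.Poly.const _)) hl

theorem poly_ccd {cs : α → List (ℕ × ℕ)} {i l : α → ℕ} (h : P cs) (hi : P i) (hl : P l) :
    P (fun a => ccd (cs a) (i a) (l a)) :=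
  poly_csp (Poly.getD h hi (Pool.Agent.NPC.Poly.const _)) hl

theorem poly_isG {rs : α → List Gt} {cs : α → List (ℕ × ℕ)} {i j : α → ℕ} (h : P rs) (h' : P cs)
    (hi : P i) (hj : P j) : P (fun a => isG (rs a) (cs a) (i a) (j a)) :=
  (Poly.decide_mem (Poly.getD h' hj (Pool.Agent.NPC.Poly.const (0, 0)))
    (poly_gset (Poly.getD h hi (Pool.Agent.NPC.Poly.const (0, 0, 0, 0))))).congr fun a => by
      unfold isG
      exact decide_eq_decide.2 Iff.rfl

theorem poly_knd {N : α → ℕ} {rs : α → List Gt} {cs : α → List (ℕ × ℕ)} {i j : α → ℕ} (hN : P N)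
    (h : P rs) (h' : P cs) (hi : P i) (hj : P j) :
    P (fun a => knd (N a) (rs a) (cs a) (i a) (j a)) := by
  have c : ∀ n : ℕ, P (fun _ : α => n) := fun n => Pool.Agent.NPC.Poly.const n
  refine Poly.ite (Poly.decide_bool (poly_isG h h' hi hj)) (c 0) (Poly.ite ?_ (c 2) (c 1))
  exact Poly.decide_and (Poly.decide_eq hi (Poly.sub hN (c 1)))
    (Poly.decide_eq hj (Poly.sub (Poly.length h') (c 1)))

theorem poly_spq {c : α → ℕ} (hc : P c) : P (fun a => spq (c a)) := by
  have k : ∀ q : ℚ, P (fun _ : α => q) := fun q => Pool.Agent.NPC.Poly.const q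
  have e : ∀ n : ℕ, P (fun a => decide (c a = n)) :=
    fun n => Poly.decide_eq hc (Pool.Agent.NPC.Poly.const n)
  exact Poly.ite (e 2) (k 1) (Poly.ite (e 3) (k (-1)) (Poly.ite (e 4) (k (1 / 2))
    (Poly.ite (e 5) (k 1) (Poly.ite (e 6) (k (1 / 8)) (k 0)))))

theorem poly_cell0 {rs : α → List Gt} {cs : α → List (ℕ × ℕ)} {i j : α → ℕ} (h : P rs)
    (h' : P cs) (hi : P i) (hj : P j) : P (fun a => cell0 (rs a) (cs a) (i a) (j a)) := by
  have c : ∀ n : ℕ, P (fun _ : α => n) := fun n => Pool.Agent.NPC.Poly.const n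
  have q : ∀ q : ℚ, P (fun _ : α => q) := fun q => Pool.Agent.NPC.Poly.const q
  have nn : P (fun _ : α => (none : Option ℚ)) := Pool.Agent.NPC.Poly.const none
  have i3 := Poly.sub hi (c 3)
  have j3 := Poly.sub hj (c 3)
  have hc : P (fun a => csp ((cs a).getD (j a - 3) (0, 0)) (i a)) :=
    poly_csp (Poly.getD h' j3 (Pool.Agent.NPC.Poly.const _)) hi
  have hr : P (fun a => rsp ((rs a).getD (i a - 3) (0, 0, 0, 0)) (j a)) :=
    poly_rsp (Poly.getD h i3 (Pool.Agent.NPC.Poly.const _)) hj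
  refine Poly.ite (Poly.decide_lt hi (c 3)) (Poly.ite (Poly.decide_lt hj (c 3)) ?_
    (Poly.ite (Poly.decide_eq hc (c 0)) nn (Poly.some (poly_spq hc))))
    (Poly.ite (Poly.decide_lt hj (c 3))
      (Poly.ite (Poly.decide_eq hr (c 0)) nn (Poly.some (poly_spq hr)))
      (Poly.ite (Poly.decide_bool (poly_isG h h' i3 j3)) (Poly.some (q 0)) nn))
  exact Poly.some (Poly.ite (Poly.decide_eq hi hj) (q 1) (q 0))

end

theorem pr : S_PR := by
  refine ⟨fun N L hN hL => poly_rws hN hL, fun N hN => ⟨poly_cls hN, poly_cls1 hN⟩, ?_⟩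
  intro α _ N rs cs i j hN h h' hi hj
  exact ⟨poly_rcd h hi hj, poly_ccd h' hi hj, poly_knd hN h h' hi hj, poly_cell0 h h' hi hj⟩

end Pool.Agent.Q230.LR
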