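import Pool.Agent.Q230.LR.St

/-!
# Project LR: matrices of rank at most three
-/

set_option autoImplicit false

namespace Pool.Agent.Q230.LR

open Pool.Agent.NPC Pool.Agent.NPC.ER

theorem dot_eq_sum (u v : Fin 3 → ℝ) : dot u v = ∑ l : Fin 3, u l * v l := by
  unfold dot
  rw [Fin.sum_univ_three]

/-- Extension of a function on `Fin M`. -/
noncomputable def fx {M : ℕ} (f : Fin M → Fin 3 → ℝ) (i : ℕ) : Fin 3 → ℝ :=
  if h : i < M then f ⟨i, h⟩ else 0

theorem fx_coe {M : ℕ} (f : Fin M → Fin 3 → ℝ) (i : Fin M) : fx f i = f i := by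
  unfold fx
  rw [dif_pos i.2]

theorem rk : S_RK := by
  intro M K B
  constructor
  · intro h
    classical
    -- the column space
    set W : Submodule ℝ (Fin M → ℝ) := LinearMap.range B.mulVecLin with hW
    have hd : Module.finrank ℝ W ≤ 3 := h
    set b := Module.finBasis ℝ W with hb
    set d := Module.finrank ℝ W with hdd
    have hmem : ∀ j : Fin K, B.col j ∈ W := by
      intro j
      rw [hW, LinearMap.mem_range]
      exact ⟨Pi.single j 1, by
        rw [Matrix.mulVecLin_apply, Matrix.mulVec_single_one]⟩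
    refine ⟨fx fun i l => if hl : (l : ℕ) < d then (b ⟨l, hl⟩ : Fin M → ℝ) i else 0,
      fx fun j l => if hl : (l : ℕ) < d then b.repr ⟨B.col j, hmem j⟩ ⟨l, hl⟩ else 0, ?_⟩
    intro i j
    rw [fx_coe, fx_coe, dot_eq_sum]
    have h1 := b.sum_repr ⟨B.col j, hmem j⟩
    have h2 : (∑ k : Fin d, b.repr ⟨B.col j, hmem j⟩ k • (b k : Fin M → ℝ)) i = B i j := by
      have h3 := congrArg (fun x : W => (x : Fin M → ℝ)) h1
      simp only [Submodule.coe_sum, Submodule.coe_smul] at h3
      rw [h3]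
      rfl
    rw [← h2, Finset.sum_apply]
    simp only [Pi.smul_apply, smul_eq_mul]
    -- sum over `Fin d` against the sum over `Fin 3`
    have h4 : ∀ g : ℕ → ℝ, (∀ l, d ≤ l → g l = 0) → ∑ k : Fin d, g k = ∑ l : Fin 3, g l := by
      intro g hg
      rw [← Finset.sum_range (n := d) g, ← Finset.sum_range (n := 3) g]
      apply Finset.sum_subset
      · intro x hx
        rw [Finset.mem_range] at hx ⊢
        omega
      · intro x _ hx
        apply hg
        rw [Finset.mem_range] at hx
        omega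
    have h5 := h4 (fun l => if hl : l < d then (b.repr ⟨B.col j, hmem j⟩ ⟨l, hl⟩) *
      (b ⟨l, hl⟩ : Fin M → ℝ) i else 0) (fun l hl => dif_neg (by omega))
    simp only [Fin.is_lt, dif_pos, Fin.eta] at h5
    rw [h5]
    refine Finset.sum_congr rfl fun l _ => ?_
    by_cases hl : (l : ℕ) < d
    · simp only [dif_pos hl]
      ring
    · simp only [dif_neg hl]
      ring
  · rintro ⟨U, V, h⟩
    have h1 : B = (Matrix.of fun (i : Fin M) (l : Fin 3) => U i l) *
        (Matrix.of fun (l : Fin 3) (j : Fin K) => V j l) := by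
      ext i j
      rw [h i j, dot_eq_sum, Matrix.mul_apply]
      rfl
    rw [h1]
    refine (Matrix.rank_mul_le_left _ _).trans ?_
    exact (Matrix.rank_le_width _)

/-! ### Tables -/

theorem length_tab (M K : ℕ) (f : ℕ → ℕ → ℚ) : (tab M K f).length = M := by
  unfold tab
  rw [List.length_map, List.length_range]

theorem width_tab {M K : ℕ} (f : ℕ → ℕ → ℚ) (hM : 0 < M) : width (tab M K f) = K := by
  obtain ⟨M, rfl⟩ : ∃ M', M = M' + 1 := ⟨M - 1, by omega⟩
  unfold width tab
  rw [List.range_succ_eq_map]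
  simp

theorem ent_tab {M K : ℕ} (f : ℕ → ℕ → ℚ) {i j : ℕ} (hi : i < M) (hj : j < K) :
    ent (tab M K f) i j = f i j := by
  unfold ent tab
  simp [List.getD_eq_getElem?_getD, hi, hj]

theorem rows_tab {M K : ℕ} (f : ℕ → ℕ → ℚ) (hM : 0 < M) :
    ∀ r ∈ tab M K f, r.length = width (tab M K f) := by
  intro r hr
  rw [width_tab f hM]
  unfold tab at hr
  obtain ⟨i, _, rfl⟩ := List.mem_map.1 hr
  rw [List.length_map, List.length_range]

/-- The problem for `p = 0`, for a list of rows whose length and width are given. -/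
theorem lra0_aux (A : List (List ℚ)) (M K : ℕ) (hM : A.length = M) (hK : width A = K) (ε : ℚ) :
    (∃ B : Matrix (Fin A.length) (Fin (width A)) ℝ, B.rank ≤ 3 ∧
      ((Finset.univ.filter fun p : Fin A.length × Fin (width A) =>
        mat A p.1 p.2 ≠ B p.1 p.2).card : ℝ) < ε) ↔
    ∃ U V : ℕ → Fin 3 → ℝ, (wrong M K (ent A) U V : ℝ) < ε := by
  subst hM
  subst hK
  have hc : ∀ (B : Matrix (Fin A.length) (Fin (width A)) ℝ) (U V : ℕ → Fin 3 → ℝ),
      (∀ i j, B i j = dot (U i) (V j)) →
      (Finset.univ.filter fun p : Fin A.length × Fin (width A) =>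
        mat A p.1 p.2 ≠ B p.1 p.2).card = wrong A.length (width A) (ent A) U V := by
    intro B U V hB
    unfold wrong
    refine Finset.card_bij (fun p _ => ((p.1 : ℕ), (p.2 : ℕ))) ?_ ?_ ?_
    · intro p hp
      rw [Finset.mem_filter] at hp ⊢
      refine ⟨Finset.mem_product.2 ⟨Finset.mem_range.2 p.1.2, Finset.mem_range.2 p.2.2⟩, ?_⟩
      have h2 := hp.2
      rw [hB] at h2
      exact h2
    · intro p _ q _ h
      simp only [Prod.mk.injEq] at h
      exact Prod.ext (Fin.ext h.1) (Fin.ext h.2)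
    · intro q hq
      rw [Finset.mem_filter] at hq
      obtain ⟨h1, h2⟩ := hq
      rw [Finset.mem_product, Finset.mem_range, Finset.mem_range] at h1
      refine ⟨(⟨q.1, h1.1⟩, ⟨q.2, h1.2⟩), ?_, rfl⟩
      rw [Finset.mem_filter]
      refine ⟨Finset.mem_univ _, ?_⟩
      rw [hB]
      exact h2
  constructor
  · rintro ⟨B, hB, hlt⟩
    obtain ⟨U, V, hUV⟩ := (rk _ _ B).1 hB
    refine ⟨U, V, ?_⟩
    rw [← hc B U V hUV]
    exact hlt
  · rintro ⟨U, V, hlt⟩
    refine ⟨fun i j => dot (U i) (V j), (rk _ _ _).2 ⟨U, V, fun i j => rfl⟩, ?_⟩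
    rw [hc _ U V fun i j => rfl]
    exact hlt

/-- The problem for `p = 1`, for a list of rows whose length and width are given. -/
theorem lra1_aux (A : List (List ℚ)) (M K : ℕ) (hM : A.length = M) (hK : width A = K) (ε : ℚ) :
    (∃ B : Matrix (Fin A.length) (Fin (width A)) ℝ, B.rank ≤ 3 ∧
      ∑ i, ∑ j, |mat A i j - B i j| < (ε : ℝ)) ↔
    ∃ U V : ℕ → Fin 3 → ℝ,
      ∑ i ∈ Finset.range M, ∑ j ∈ Finset.range K, |(ent A i j : ℝ) - dot (U i) (V j)| < ε := by
  subst hM
  subst hK
  have hc : ∀ (B : Matrix (Fin A.length) (Fin (width A)) ℝ) (U V : ℕ → Fin 3 → ℝ),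
      (∀ i j, B i j = dot (U i) (V j)) →
      ∑ i, ∑ j, |mat A i j - B i j| =
        ∑ i ∈ Finset.range A.length, ∑ j ∈ Finset.range (width A),
          |(ent A i j : ℝ) - dot (U i) (V j)| := by
    intro B U V hB
    rw [Finset.sum_range]
    refine Finset.sum_congr rfl fun i _ => ?_
    rw [Finset.sum_range]
    refine Finset.sum_congr rfl fun j _ => ?_
    rw [hB]
    rfl
  constructor
  · rintro ⟨B, hB, hlt⟩
    obtain ⟨U, V, hUV⟩ := (rk _ _ B).1 hB
    refine ⟨U, V, ?_⟩
    rw [← hc B U V hUV]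
    exact hlt
  · rintro ⟨U, V, hlt⟩
    refine ⟨fun i j => dot (U i) (V j), (rk _ _ _).2 ⟨U, V, fun i j => rfl⟩, ?_⟩
    rw [hc _ U V fun i j => rfl]
    exact hlt

theorem tb : S_TB := by
  intro M K f ε hM
  have hin : IsInput (tab M K f, 3, ε) ↔ 0 < ε := by
    unfold IsInput
    exact ⟨fun h => h.2, fun h => ⟨rows_tab f hM, h⟩⟩
  constructor
  · unfold LRA0
    rw [hin]
    refine and_congr_right fun _ => ?_
    refine (lra0_aux (tab M K f) M K (length_tab M K f) (width_tab f hM) ε).trans ?_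
    refine exists_congr fun U => exists_congr fun V => ?_
    have h1 : wrong M K (ent (tab M K f)) U V = wrong M K f U V := by
      unfold wrong
      congr 1
      refine Finset.filter_congr fun p hp => ?_
      rw [Finset.mem_product, Finset.mem_range, Finset.mem_range] at hp
      rw [ent_tab f hp.1 hp.2]
    rw [h1]
  · unfold LRA1
    rw [hin]
    refine and_congr_right fun _ => ?_
    refine (lra1_aux (tab M K f) M K (length_tab M K f) (width_tab f hM) ε).trans ?_
    refine exists_congr fun U => exists_congr fun V => ?_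
    have h1 : ∑ i ∈ Finset.range M, ∑ j ∈ Finset.range K,
        |(ent (tab M K f) i j : ℝ) - dot (U i) (V j)| =
        ∑ i ∈ Finset.range M, ∑ j ∈ Finset.range K, |(f i j : ℝ) - dot (U i) (V j)| := by
      refine Finset.sum_congr rfl fun i hi => Finset.sum_congr rfl fun j hj => ?_
      rw [ent_tab f (Finset.mem_range.1 hi) (Finset.mem_range.1 hj)]
    rw [h1]

end Pool.Agent.Q230.LR
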