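import Pool.Agent.Q230.LR.St

/-!
# Project LR: systems and straight-line programs
-/

set_option autoImplicit false

namespace Pool.Agent.Q230.LR

open Pool.Agent.NPC Pool.Agent.NPC.ER

/-- A run exists. -/
theorem exists_run {N₀ : ℕ} {L : List Gt} (hW : Wf N₀ L) (κ : ℝ) (c : ℕ → ℝ) :
    ∃ v : ℕ → ℝ, (∀ k < N₀, v k = c k) ∧ ∀ g ∈ L, Hld κ v g := by
  have key : ∀ T ≤ L.length, ∃ v : ℕ → ℝ, (∀ k < N₀, v k = c k) ∧
      ∀ t < T, ∀ g, L[t]? = some g → Hld κ v g := by
    intro T
    induction T with
    | zero => exact fun _ => ⟨c, fun _ _ => rfl, fun t ht => absurd ht (by omega)⟩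
    | succ T ih =>
      intro hT
      obtain ⟨v, hv, hg⟩ := ih (by omega)
      obtain ⟨g, hgT⟩ : ∃ g, L[T]? = some g := ⟨L[T], List.getElem?_eq_getElem (by omega)⟩
      obtain ⟨g1, g2, g3, g4⟩ := hW T g hgT
      -- changing a later value does not change the earlier gates
      have hch : ∀ t ≤ T, ∀ g', L[t]? = some g' → ∀ x : ℝ,
          op κ (Function.update v (N₀ + T) x) g' = op κ v g' := by
        intro t ht g' hg' x
        obtain ⟨f1, f2, f3, f4⟩ := hW t g' hg'
        unfold op
        by_cases h0 : g'.1 = 0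
        · simp [h0]
        have f3' := f3 h0
        have e1 : Function.update v (N₀ + T) x g'.2.1 = v g'.2.1 :=
          Function.update_of_ne (by omega) _ _
        by_cases h1 : g'.1 = 1
        · have f4' := f4 (Or.inl h1)
          have e2 : Function.update v (N₀ + T) x g'.2.2.1 = v g'.2.2.1 :=
            Function.update_of_ne (by omega) _ _
          rw [e1, e2]
        by_cases h3 : g'.1 = 3
        · have f4' := f4 (Or.inr h3)
          have e2 : Function.update v (N₀ + T) x g'.2.2.1 = v g'.2.2.1 :=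
            Function.update_of_ne (by omega) _ _
          rw [e1, e2]
        · have h2 : g'.1 = 2 := by omega
          simp only [h2, e1]
          norm_num
      refine ⟨Function.update v (N₀ + T) (op κ v g), fun k hk => ?_, ?_⟩
      · rw [Function.update_of_ne (by omega)]
        exact hv k hk
      · intro t ht g' hg'
        unfold Hld
        rw [hch t (by omega) g' hg']
        by_cases htT : t = T
        · subst htT
          rw [hgT] at hg'
          cases hg'
          rw [g2, Function.update_self]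
        · have h5 := (hW t g' hg').2.1
          rw [h5, Function.update_of_ne (by omega), ← h5]
          exact hg t (by omega) g' hg'
  obtain ⟨v, hv, hg⟩ := key L.length le_rfl
  refine ⟨v, hv, fun g hgL => ?_⟩
  obtain ⟨t, ht⟩ := List.mem_iff_getElem?.1 hgL
  refine hg t ?_ g ht
  by_contra h
  rw [List.getElem?_eq_none (by omega)] at ht
  cases ht

/-! ### The values of a run -/

section

variable {T : List Con} {κ : ℝ} {v : ℕ → ℝ}

theorem pre_mem {g : Gt} (h : g ∈ pre T) : g ∈ gates1 T := by
  unfold gates1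
  simp only [List.mem_append]
  exact Or.inl (Or.inl h)

theorem blk_mem {c : Con} {p : ℕ} (hp : T[p]? = some c) {g : Gt}
    (h : g ∈ blk T c (bas T + 6 * p)) : g ∈ gates1 T := by
  unfold gates1
  simp only [List.mem_append, List.mem_flatMap]
  exact Or.inl (Or.inr ⟨(c, p), List.mem_zipIdx_iff_getElem?.2 hp, h⟩)

variable (hv : ∀ g ∈ gates1 T, Hld κ v g)

include hv

theorem val_k8 : v (svars T).length = κ / 8 := by
  have h := hv _ (pre_mem (g := (0, 0, 1, (svars T).length)) (by simp [pre]))
  simpa [Hld, op, cv] using h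

theorem val_k : v ((svars T).length + 1) = κ := by
  have h := hv _ (pre_mem (g := (0, 0, 8, (svars T).length + 1)) (by simp [pre]))
  simpa [Hld, op, cv] using h

theorem val_z : v ((svars T).length + 2) = 0 := by
  have h := hv _ (pre_mem (g := (0, 0, 0, (svars T).length + 2)) (by simp [pre]))
  simpa [Hld, op, cv] using h

theorem val_pow : ∀ j < sqn T, v ((svars T).length + 3 + j) = κ ^ 2 ^ (j + 1) := by
  intro j
  induction j with
  | zero =>
    intro h0
    have h := hv _ (pre_mem (g := (3, (svars T).length + 1, (svars T).length + 1,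
      (svars T).length + 3 + 0)) (by
        unfold pre
        simp only [List.mem_append, List.mem_map, List.mem_range]
        exact Or.inl (Or.inr ⟨0, h0, by simp⟩)))
    have h1 : v ((svars T).length + 3 + 0) = v ((svars T).length + 1) * v ((svars T).length + 1) := by
      simpa [Hld, op] using h
    rw [h1, val_k hv]
    norm_num
    ring
  | succ j ih =>
    intro hj
    have ih := ih (by omega)
    have h := hv _ (pre_mem (g := (3, (svars T).length + 2 + (j + 1),
      (svars T).length + 2 + (j + 1), (svars T).length + 3 + (j + 1))) (by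
        unfold pre
        simp only [List.mem_append, List.mem_map, List.mem_range]
        exact Or.inl (Or.inr ⟨j + 1, hj, by simp⟩)))
    have h1 : v ((svars T).length + 3 + (j + 1)) =
        v ((svars T).length + 2 + (j + 1)) * v ((svars T).length + 2 + (j + 1)) := by
      simpa [Hld, op] using h
    have h2 : (svars T).length + 2 + (j + 1) = (svars T).length + 3 + j := by ring
    rw [h1, h2, ih, ← pow_add]
    congr 1
    ring

theorem val_last : v ((svars T).length + 3 + sqn T) = -κ ^ 2 ^ sqn T := by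
  have h := hv _ (pre_mem (g := (2, (svars T).length + 2 + sqn T, 0,
    (svars T).length + 3 + sqn T)) (by simp [pre]))
  have h1 : v ((svars T).length + 3 + sqn T) = -v ((svars T).length + 2 + sqn T) := by
    simpa [Hld, op] using h
  have h2 : 0 < sqn T := by unfold sqn; omega
  have h3 := val_pow hv (sqn T - 1) (by omega)
  have h4 : (svars T).length + 3 + (sqn T - 1) = (svars T).length + 2 + sqn T := by omega
  have h5 : sqn T - 1 + 1 = sqn T := by omega
  rw [h4, h5] at h3
  rw [h1, h3]

theorem val_s0 : v (bas T - 1) = 0 := by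
  have h := hv _ (pre_mem (g := (0, 0, 0, (svars T).length + 4 + sqn T)) (by simp [pre]))
  have h1 : bas T - 1 = (svars T).length + 4 + sqn T := by unfold bas; omega
  rw [h1]
  simpa [Hld, op, cv] using h

/-- the difference computed in the block of a constraint -/
theorem val_blk {c : Con} {p : ℕ} (hp : T[p]? = some c) :
    v (bas T + 6 * p + 3) = (v (bas T + 6 * p) - v (bas T + 6 * p + 1)) / 2 ∧
    v (bas T + 6 * p + 5) = (v (bas T + 6 * p - 1) + v (bas T + 6 * p + 3) ^ 2) / 2 := by
  have hm : ∀ g ∈ [((2 : ℕ), bas T + 6 * p + 1, (0 : ℕ), bas T + 6 * p + 2),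
      (1, bas T + 6 * p, bas T + 6 * p + 2, bas T + 6 * p + 3),
      (3, bas T + 6 * p + 3, bas T + 6 * p + 3, bas T + 6 * p + 4),
      (1, bas T + 6 * p - 1, bas T + 6 * p + 4, bas T + 6 * p + 5)], Hld κ v g := by
    intro g hg
    refine hv g (blk_mem hp ?_)
    unfold blk
    exact List.mem_append_right _ hg
  simp only [List.forall_mem_cons] at hm
  obtain ⟨h1, h2, h3, h4, -⟩ := hm
  have e1 : v (bas T + 6 * p + 2) = -v (bas T + 6 * p + 1) := by simpa [Hld, op] using h1
  have e2 : v (bas T + 6 * p + 3) = (v (bas T + 6 * p) + v (bas T + 6 * p + 2)) / 2 := by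
    simpa [Hld, op] using h2
  have e3 : v (bas T + 6 * p + 4) = v (bas T + 6 * p + 3) * v (bas T + 6 * p + 3) := by
    simpa [Hld, op] using h3
  have e4 : v (bas T + 6 * p + 5) = (v (bas T + 6 * p - 1) + v (bas T + 6 * p + 4)) / 2 := by
    simpa [Hld, op] using h4
  constructor
  · rw [e2, e1]; ring
  · rw [e4, e3]; ring

/-- the values compared in the block of a constraint -/
theorem val_two {c : Con} {p : ℕ} (hp : T[p]? = some c) :
    v (bas T + 6 * p) - v (bas T + 6 * p + 1) = (match c with
      | ER.Con.one i => (v (ri T i) - κ / 8) / 2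
      | ER.Con.add i j k => (v (ri T i) + v (ri T j) - v (ri T k)) / 2
      | ER.Con.mul i j k => v (ri T i) * v (ri T j) - κ * v (ri T k)) := by
  have hm : ∀ g ∈ two T c (bas T + 6 * p), Hld κ v g := by
    intro g hg
    refine hv g (blk_mem hp ?_)
    unfold blk
    exact List.mem_append_left _ hg
  have z := val_z hv
  have k8 := val_k8 hv
  have k1 := val_k hv
  cases c with
  | one i =>
    simp only [two, List.forall_mem_cons] at hm
    obtain ⟨h1, h2, -⟩ := hm
    have e1 : v (bas T + 6 * p) = (v (ri T i) + v ((svars T).length + 2)) / 2 := by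
      simpa [Hld, op] using h1
    have e2 : v (bas T + 6 * p + 1) = (v ((svars T).length) + v ((svars T).length + 2)) / 2 := by
      simpa [Hld, op] using h2
    simp only
    rw [e1, e2, z, k8]
    ring
  | add i j k =>
    simp only [two, List.forall_mem_cons] at hm
    obtain ⟨h1, h2, -⟩ := hm
    have e1 : v (bas T + 6 * p) = (v (ri T i) + v (ri T j)) / 2 := by
      simpa [Hld, op] using h1
    have e2 : v (bas T + 6 * p + 1) = (v (ri T k) + v ((svars T).length + 2)) / 2 := by
      simpa [Hld, op] using h2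
    simp only
    rw [e1, e2, z]
    ring
  | mul i j k =>
    simp only [two, List.forall_mem_cons] at hm
    obtain ⟨h1, h2, -⟩ := hm
    have e1 : v (bas T + 6 * p) = v (ri T i) * v (ri T j) := by
      simpa [Hld, op] using h1
    have e2 : v (bas T + 6 * p + 1) = v ((svars T).length + 1) * v (ri T k) := by
      simpa [Hld, op] using h2
    simp only
    rw [e1, e2, k1]

theorem val_out : v (out1 T) = (v (bas T + 6 * T.length - 1) - κ ^ 2 ^ sqn T) / 2 := by
  have h := hv (1, bas T + 6 * T.length - 1, (svars T).length + 3 + sqn T,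
    bas T + 6 * T.length) (by
      unfold gates1
      simp)
  have h1 : v (out1 T) = (v (bas T + 6 * T.length - 1) +
      v ((svars T).length + 3 + sqn T)) / 2 := by
    simpa [Hld, op, out1] using h
  rw [h1, val_last hv]
  ring

/-- The recursion of the sums of squares. -/
theorem val_rec {c : Con} {p : ℕ} (hp : T[p]? = some c) :
    v (bas T + 6 * (p + 1) - 1) =
      (v (bas T + 6 * p - 1) + v (bas T + 6 * p + 3) ^ 2) / 2 := by
  have h1 : bas T + 6 * (p + 1) - 1 = bas T + 6 * p + 5 := by omega
  rw [h1]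
  exact (val_blk hv hp).2

end

/-- The system has a solution if the output is negative. -/
theorem slp_mpr {S : List Con} {κ : ℝ} (hκ : 0 < κ) (hκ8 : κ ≤ 1 / 8) {v : ℕ → ℝ}
    (hv : ∀ g ∈ gates1 (bsys S), Hld κ v g) (hb : ∀ k < (svars (bsys S)).length, |v k| ≤ κ)
    (hout : v (out1 (bsys S)) < 0) : Sat S := by
  set T := bsys S with hT
  set M := T.length with hM
  have hs : ∀ p ≤ M, 0 ≤ v (bas T + 6 * p - 1) := by
    intro p
    induction p with
    | zero =>
      intro _
      have := val_s0 hv
      rw [mul_zero, add_zero, this]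
    | succ p ih =>
      intro hp
      have h1 : T[p]? = some T[p] := List.getElem?_eq_getElem (by omega)
      rw [val_rec hv h1]
      have := ih (by omega)
      positivity
  -- the last sum bounds every term
  have hlow : ∀ p < M, ∀ d, p + 1 + d ≤ M →
      v (bas T + 6 * p + 3) ^ 2 ≤ 2 ^ (d + 1) * v (bas T + 6 * (p + 1 + d) - 1) := by
    intro p hp d
    induction d with
    | zero =>
      intro _
      have h1 : T[p]? = some T[p] := List.getElem?_eq_getElem (by omega)
      rw [add_zero, val_rec hv h1]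
      have := hs p (by omega)
      norm_num
      linarith
    | succ d ih =>
      intro hd
      have ih := ih (by omega)
      have h1 : T[p + 1 + d]? = some T[p + 1 + d] := List.getElem?_eq_getElem (by omega)
      have h2 : p + 1 + (d + 1) = (p + 1 + d) + 1 := by ring
      rw [h2, val_rec hv h1]
      refine ih.trans ?_
      rw [pow_succ 2 (d + 1)]
      have h3 : (0 : ℝ) ≤ 2 ^ (d + 1) := by positivity
      have h4 : v (bas T + 6 * (p + 1 + d) - 1) ≤
          2 * ((v (bas T + 6 * (p + 1 + d) - 1) + v (bas T + 6 * (p + 1 + d) + 3) ^ 2) / 2) := by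
        have := sq_nonneg (v (bas T + 6 * (p + 1 + d) + 3))
        linarith
      calc 2 ^ (d + 1) * v (bas T + 6 * (p + 1 + d) - 1) ≤ 2 ^ (d + 1) *
            (2 * ((v (bas T + 6 * (p + 1 + d) - 1) +
              v (bas T + 6 * (p + 1 + d) + 3) ^ 2) / 2)) := mul_le_mul_of_nonneg_left h4 h3
        _ = _ := by ring
  have hfin : v (bas T + 6 * M - 1) < κ ^ 2 ^ sqn T := by
    have h1 := val_out hv
    rw [h1] at hout
    linarith
  have hr : ∀ p < M, v (bas T + 6 * p + 3) ^ 2 ≤ 2 ^ M * κ ^ 2 ^ sqn T := by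
    intro p hp
    have h1 := hlow p hp (M - (p + 1)) (by omega)
    have h2 : p + 1 + (M - (p + 1)) = M := by omega
    rw [h2] at h1
    refine h1.trans ?_
    have h3 : (2 : ℝ) ^ (M - (p + 1) + 1) ≤ 2 ^ M :=
      pow_le_pow_right₀ (by norm_num) (by omega)
    exact mul_le_mul h3 hfin.le (hs M le_rfl) (by positivity)
  -- the approximate solution
  set w : ℕ → ℝ := fun i => v (ri T i) / κ with hw
  have hvw : ∀ i, v (ri T i) = κ * w i := by
    intro i
    simp only [hw]
    field_simp
  have hw1 : ∀ i ∈ svars T, |w i| ≤ 1 := by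
    intro i hi
    have h1 := hb (ri T i) (List.idxOf_lt_length_of_mem hi)
    simp only [hw]
    rw [abs_div, abs_of_pos hκ, div_le_one hκ]
    exact h1
  have herr : ∀ p < M, ∀ c, T[p]? = some c →
      |c.err w| ≤ 32 * |v (bas T + 6 * p + 3)| / κ ^ 2 := by
    intro p hp c hc
    have h1 := (val_blk hv hc).1
    rw [val_two hv hc] at h1
    have hκ2 : (0 : ℝ) < κ ^ 2 := by positivity
    have hκ1 : κ ≤ 1 := by linarith
    cases c with
    | one i =>
      simp only at h1
      rw [hvw] at h1
      have h2 : κ * Con.err w (ER.Con.one i) = 32 * v (bas T + 6 * p + 3) := by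
        rw [h1]; simp only [Con.err]; ring
      have h3 : κ * |Con.err w (ER.Con.one i)| = 32 * |v (bas T + 6 * p + 3)| := by
        have := congrArg abs h2
        rwa [abs_mul, abs_mul, abs_of_pos hκ, abs_of_pos (by norm_num : (0 : ℝ) < 32)] at this
      rw [le_div_iff₀ hκ2, ← h3]
      have h4 : 0 ≤ |Con.err w (ER.Con.one i)| := abs_nonneg _
      have h5 : κ ^ 2 ≤ κ := by nlinarith
      calc |Con.err w (ER.Con.one i)| * κ ^ 2 ≤ |Con.err w (ER.Con.one i)| * κ :=
            mul_le_mul_of_nonneg_left h5 h4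
        _ = _ := mul_comm _ _
    | add i j k =>
      simp only at h1
      rw [hvw, hvw, hvw] at h1
      have h2 : κ * Con.err w (ER.Con.add i j k) = 4 * v (bas T + 6 * p + 3) := by
        rw [h1]; simp only [Con.err]; ring
      have h3 : κ * |Con.err w (ER.Con.add i j k)| = 4 * |v (bas T + 6 * p + 3)| := by
        have := congrArg abs h2
        rwa [abs_mul, abs_mul, abs_of_pos hκ, abs_of_pos (by norm_num : (0 : ℝ) < 4)] at this
      rw [le_div_iff₀ hκ2]
      have h4 : 0 ≤ |Con.err w (ER.Con.add i j k)| := abs_nonneg _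
      have h5 : κ ^ 2 ≤ κ := by nlinarith
      calc |Con.err w (ER.Con.add i j k)| * κ ^ 2 ≤ |Con.err w (ER.Con.add i j k)| * κ :=
            mul_le_mul_of_nonneg_left h5 h4
        _ = κ * |Con.err w (ER.Con.add i j k)| := mul_comm _ _
        _ = 4 * |v (bas T + 6 * p + 3)| := h3
        _ ≤ 32 * |v (bas T + 6 * p + 3)| := by
            have := abs_nonneg (v (bas T + 6 * p + 3)); linarith
    | mul i j k =>
      simp only at h1
      rw [hvw, hvw, hvw] at h1
      have h2 : κ ^ 2 * Con.err w (ER.Con.mul i j k) = 2 * v (bas T + 6 * p + 3) := by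
        rw [h1]; simp only [Con.err]; ring
      have h3 : κ ^ 2 * |Con.err w (ER.Con.mul i j k)| = 2 * |v (bas T + 6 * p + 3)| := by
        have := congrArg abs h2
        rwa [abs_mul, abs_mul, abs_of_pos hκ2, abs_of_pos (by norm_num : (0 : ℝ) < 2)] at this
      rw [le_div_iff₀ hκ2]
      calc |Con.err w (ER.Con.mul i j k)| * κ ^ 2 = κ ^ 2 * |Con.err w (ER.Con.mul i j k)| :=
            mul_comm _ _
        _ = 2 * |v (bas T + 6 * p + 3)| := h3
        _ ≤ 32 * |v (bas T + 6 * p + 3)| := by
            have := abs_nonneg (v (bas T + 6 * p + 3)); linarith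
  -- the numerical bound
  have hq : sqn T = gapK M + M + 5 := rfl
  have hpow : 10 + M + 2 * 2 ^ gapK M ≤ 3 * (2 ^ sqn T - 4) := by
    have h1 : M + 1 ≤ 2 ^ M := Nat.lt_two_pow_self
    have h2 : 1 ≤ 2 ^ gapK M := Nat.one_le_two_pow
    have h3 : 2 ^ sqn T = 32 * (2 ^ gapK M * 2 ^ M) := by
      rw [hq, pow_add, pow_add]; ring
    have h4 : 2 ^ gapK M * (M + 1) ≤ 2 ^ gapK M * 2 ^ M := Nat.mul_le_mul_left _ h1
    have h5 : M + 1 ≤ 2 ^ gapK M * (M + 1) := Nat.le_mul_of_pos_left _ (by omega)
    have h6 : 2 ^ gapK M ≤ 2 ^ gapK M * (M + 1) := Nat.le_mul_of_pos_right _ (by omega)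
    omega
  have h4q : 4 ≤ 2 ^ sqn T := by omega
  have hκpow : κ ^ 2 ^ sqn T ≤ κ ^ 4 * (1 / 8) ^ (2 ^ sqn T - 4) := by
    have h1 : κ ^ 2 ^ sqn T = κ ^ 4 * κ ^ (2 ^ sqn T - 4) := by
      rw [← pow_add]; congr 1; omega
    rw [h1]
    exact mul_le_mul_of_nonneg_left (pow_le_pow_left₀ hκ.le hκ8 _) (by positivity)
  obtain ⟨w', hw'⟩ := holds_of_approx (S := T) (w := w) hw1 (by
    intro c hc
    obtain ⟨p, hp⟩ := List.mem_iff_getElem?.1 hc
    have hpM : p < M := by
      by_contra h
      rw [List.getElem?_eq_none (by omega)] at hp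
      cases hp
    have h1 := herr p hpM c hp
    have h2 := hr p hpM
    set r := v (bas T + 6 * p + 3) with hr'
    have h3 : (|c.err w| * 2 ^ 2 ^ gapK M) ^ 2 ≤ 1 := by
      have h4 : |c.err w| ^ 2 ≤ (32 * |r| / κ ^ 2) ^ 2 :=
        pow_le_pow_left₀ (abs_nonneg _) h1 2
      have h5 : (32 * |r| / κ ^ 2) ^ 2 = 2 ^ 10 * r ^ 2 / κ ^ 4 := by
        rw [div_pow, mul_pow, sq_abs]; ring
      have h6 : 2 ^ 10 * r ^ 2 / κ ^ 4 ≤ 2 ^ 10 * (2 ^ M * (1 / 8) ^ (2 ^ sqn T - 4)) := by
        rw [div_le_iff₀ (by positivity)]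
        calc 2 ^ 10 * r ^ 2 ≤ 2 ^ 10 * (2 ^ M * κ ^ 2 ^ sqn T) :=
              mul_le_mul_of_nonneg_left h2 (by positivity)
          _ ≤ 2 ^ 10 * (2 ^ M * (κ ^ 4 * (1 / 8) ^ (2 ^ sqn T - 4))) := by
              apply mul_le_mul_of_nonneg_left _ (by positivity)
              exact mul_le_mul_of_nonneg_left hκpow (by positivity)
          _ = _ := by ring
      have h7 : (2 : ℝ) ^ 10 * (2 ^ M * (1 / 8) ^ (2 ^ sqn T - 4)) * (2 ^ 2 ^ gapK M) ^ 2 ≤ 1 := by
        have h8 : (1 / 8 : ℝ) ^ (2 ^ sqn T - 4) = 1 / 2 ^ (3 * (2 ^ sqn T - 4)) := by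
          rw [div_pow, one_pow, pow_mul]; norm_num
        rw [h8]
        have h9 : (2 : ℝ) ^ 10 * (2 ^ M * (1 / 2 ^ (3 * (2 ^ sqn T - 4)))) *
            (2 ^ 2 ^ gapK M) ^ 2 = 2 ^ (10 + M + 2 * 2 ^ gapK M) /
              2 ^ (3 * (2 ^ sqn T - 4)) := by
          rw [pow_add, pow_add, pow_mul' 2 2]
          ring
        rw [h9, div_le_one (by positivity)]
        exact pow_le_pow_right₀ (by norm_num) hpow
      calc (|c.err w| * 2 ^ 2 ^ gapK M) ^ 2 = |c.err w| ^ 2 * (2 ^ 2 ^ gapK M) ^ 2 := by ring
        _ ≤ (2 ^ 10 * (2 ^ M * (1 / 8) ^ (2 ^ sqn T - 4))) * (2 ^ 2 ^ gapK M) ^ 2 := by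
            apply mul_le_mul_of_nonneg_right _ (by positivity)
            rw [h5] at h4
            exact h4.trans h6
        _ ≤ 1 := h7
    have h10 : 0 ≤ |c.err w| * 2 ^ 2 ^ gapK M := by positivity
    exact (sq_le_one_iff₀ h10).1 h3)
  exact sat_of_bsys (S := S) (w := w') hw'

/-- **Systems and straight-line programs.** -/
theorem slp (hwf : S_WF) : S_SLP := by
  intro S κ hκ hκ8
  constructor
  · intro hS
    obtain ⟨w, hw, hc⟩ := bsys_of_sat_const (κ := 1 / 8) (by norm_num) le_rfl hS
    set T := bsys S with hT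
    obtain ⟨v, hv0, hv⟩ := exists_run (hwf T).1 κ (fun k => κ * w ((svars T).getD k 0))
    have hri : ∀ i ∈ svars T, v (ri T i) = κ * w i := by
      intro i hi
      have h1 : (svars T).idxOf i < (svars T).length := List.idxOf_lt_length_of_mem hi
      rw [hv0 (ri T i) h1]
      unfold ri
      rw [List.getD_eq_getElem _ _ h1, List.getElem_idxOf h1]
    have hr : ∀ p < T.length, v (bas T + 6 * p + 3) = 0 := by
      intro p hp
      obtain ⟨c, h1⟩ : ∃ c, T[p]? = some c := ⟨T[p], List.getElem?_eq_getElem hp⟩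
      have h2 := (val_blk hv h1).1
      rw [val_two hv h1] at h2
      rw [h2]
      have hmem : c ∈ T := List.mem_of_getElem? h1
      have hh := hc _ hmem
      cases c with
      | one i =>
        have m1 : i ∈ svars T := mem_svars hmem (by simp [Con.vars])
        simp only [Con.HoldsC] at hh
        simp only
        rw [hri i m1, hh]
        ring
      | add i j k =>
        have m1 : i ∈ svars T := mem_svars hmem (by simp [Con.vars])
        have m2 : j ∈ svars T := mem_svars hmem (by simp [Con.vars])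
        have m3 : k ∈ svars T := mem_svars hmem (by simp [Con.vars])
        simp only [Con.HoldsC] at hh
        simp only
        rw [hri i m1, hri j m2, hri k m3, ← hh]
        ring
      | mul i j k =>
        have m1 : i ∈ svars T := mem_svars hmem (by simp [Con.vars])
        have m2 : j ∈ svars T := mem_svars hmem (by simp [Con.vars])
        have m3 : k ∈ svars T := mem_svars hmem (by simp [Con.vars])
        simp only [Con.HoldsC] at hh
        simp only
        rw [hri i m1, hri j m2, hri k m3, ← hh]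
        ring
    have hs : ∀ p ≤ T.length, v (bas T + 6 * p - 1) = 0 := by
      intro p
      induction p with
      | zero =>
        intro _
        rw [mul_zero, add_zero]
        exact val_s0 hv
      | succ p ih =>
        intro hp
        have h1 : T[p]? = some T[p] := List.getElem?_eq_getElem (by omega)
        rw [val_rec hv h1, ih (by omega), hr p (by omega)]
        norm_num
    refine ⟨v, hv, fun k hk => ?_, ?_⟩
    · rw [hv0 k hk, abs_mul, abs_of_pos hκ]
      have h1 := hw ((svars T).getD k 0)
      nlinarith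
    · rw [val_out hv, hs _ le_rfl]
      have : 0 < κ ^ 2 ^ sqn T := by positivity
      linarith
  · rintro ⟨v, hv, hb, hout⟩
    exact slp_mpr hκ hκ8 hv hb hout

end Pool.Agent.Q230.LR
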