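import Pool.Agent.Q230.LR.Defs

/-!
# Project LR: the statements with their proofs in words
-/

set_option autoImplicit false

namespace Pool.Agent.Q230.LR

open Pool.Agent.NPC Pool.Agent.NPC.ER

/-! ### Systems and gates -/

/-- **S_GS0.** Proof. Let `n = (svars S).length`. (→) `v₀` satisfies `S`. Put `v k = v₀ (svars S)[k]`
for `k < n`, `v n = 0`, `v (n + 1 + t) = v₀ k / 2` if the `t`-th constraint is `add i j k`, `0`
otherwise. For `i ∈ svars S`: `ri S i < n` and `(svars S)[ri S i] = i` (`List.getElem_idxOf`), so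
`v (ri S i) = v₀ i`. The gates: `one i`: `v₀ i = 1 = cv 1 8`. `add i j k`: both means are
`v₀ k / 2`. (←) `v₀ i = v (ri S i)`: here `v n = 0` by the first gate. The bounds `Bd`: clear. -/
def S_GS0 : Prop := ∀ S : List Con,
  (Sat S ↔ ∃ v : ℕ → ℝ, ∀ g ∈ gates0 S, Hld 1 v g) ∧ Bd (num0 S) (gates0 S)

/-- **S_WF.** The gates `gates1 T` form a straight-line program. Proof: `pre T` has
`sqn T + 5` elements, its `t`-th element has the output `(svars T).length + t` (`t = 0, 1, 2`;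
`t = 3 + j` for the squares; the last two); the block of the `p`-th constraint has six elements
with the outputs `bas T + 6 p + 0 … 5`, and `bas T = (svars T).length + (sqn T + 5)`; the last gate
has the output `bas T + 6 T.length = out1 T`. The inputs are `ri T i < (svars T).length` (as `i` is
in `svars T`) or earlier outputs: check every gate. A convenient way: prove that `Wf N₀ L` and
`Wf (N₀ + L.length) L'` give `Wf N₀ (L ++ L')`, and use induction on the list of constraints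
for the blocks (with `T.zipIdx q`). -/
def S_WF : Prop := ∀ T : List Con,
  Wf (svars T).length (gates1 T) ∧ (svars T).length + (gates1 T).length = out1 T + 1

/-- **S_SLP.** Proof. Let `T = bsys S`, `n = (svars T).length`, `M = T.length`, `q = sqn T`.

(→) `bsys_of_sat_const (κ := 1/8)` gives `w` with `|w i| ≤ 1/8` and `c.HoldsC (1/8) w` for `c ∈ T`.
Put `v k = κ * w ((svars T)[k])` for `k < n`, and let the gates compute the others (existence of
such a `v`: `Wf` and strong recursion, or give the values explicitly: `v n = κ/8`,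
`v (n+1) = κ`, `v (n+2) = 0`, `v (n+3+j) = κ ^ 2 ^ (j+1)` for `j < q`, `v (n+3+q) = -κ ^ 2 ^ q`,
`v (n+4+q) = 0`; in the block of the constraint `c` at the position `p`, with `Q = bas T + 6 p`:
for `one i`: `κ * w i / 2` and `κ / 16`; for `add i j k`: `κ * (w i + w j) / 2`, `κ * w k / 2`; for
`mul i j k`: `κ^2 * w i * w j`, `κ ^ 2 * w k`; these two values `x, y` are equal, the following
ones are `-y`, `(x - y) / 2 = 0`, `0`, and `(s + 0) / 2 = 0` where `s = 0` is the value before the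
block (the variable `Q - 1`); the output is `(0 - κ ^ 2 ^ q) / 2 < 0`). And `|v k| ≤ κ` for `k < n`.

(←) Let `w i = v (ri T i) / κ`; `|w i| ≤ 1` for `i ∈ svars T`. In the block of a constraint the
value `r = v (Q + 3)` is `κ (8 w i - 1) / 32` for `one i` [`(κ w/2 - κ/16) / 2`],
`κ (w i + w j - w k) / 4` for `add`, `κ² (w i w j - w k) / 2` for `mul`; so (as `0 < κ ≤ 1`)
`|c.err w| ≤ 32 |r| / κ²`. The values `s_p = v (bas T + 6 p - 1)` satisfy `s_0 = 0`,
`s_{p+1} = (s_p + r_p²) / 2`; so all are `≥ 0` and `s_M ≥ r_p² / 2 ^ M` for every `p < M` (induction: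
`s_{p'} ≥ r_p² / 2 ^ (p' - p)` for `p' > p`). The output is `(s_M - κ ^ 2 ^ q) / 2 < 0`: so
`r_p² < 2 ^ M * κ ^ 2 ^ q`. So `(c.err w)² ≤ 2 ^ 10 r² / κ⁴ < 2 ^ (10 + M) * κ ^ (2 ^ q - 4)
≤ 2 ^ (10 + M) / 8 ^ (2 ^ q - 4)`. With `q = gapK M + M + 5` we have `3 (2 ^ q - 4) ≥
10 + M + 2 * 2 ^ gapK M` (`2 ^ q = 32 * 2 ^ gapK M * 2 ^ M`, `gapK M ≥ 7`, `M < 2 ^ M`). So
`(c.err w * 2 ^ 2 ^ gapK M)² ≤ 1`, and `holds_of_approx` (file ER/GapSys) and
`sat_of_bsys` give `Sat S`. -/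
def S_SLP : Prop := ∀ (S : List Con) (κ : ℝ), 0 < κ → κ ≤ 1 / 8 →
  (Sat S ↔ ∃ v : ℕ → ℝ, (∀ g ∈ gates1 (bsys S), Hld κ v g) ∧
    (∀ k < (svars (bsys S)).length, |v k| ≤ κ) ∧ v (out1 (bsys S)) < 0)

/-- **S_RUN.** An approximate run is near an exact run. Proof. Define `v` by strong recursion:
`v k = c k` for `k < N₀`, `v (N₀ + t) = op κ v L[t]` for `t < L.length` (this only uses earlier
values, by `Wf`), `0` otherwise. By strong induction on `k`: `|v k - c k| ≤ j * η` for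
`k < N₀ + j`, `j ≤ L.length`: for `k = N₀ + t`, `g = L[t]`: `|v k - c k| ≤ |op κ v g - op κ c g| + η`,
and `|op κ v g - op κ c g| ≤ t * η`: constants: `0`; mean and opposite: clear; product:
`|v i v j - c i c j| ≤ |v i| |v j - c j| + |c j| |v i - c i| ≤ (1/2 + 1/4) t η`, as
`|v i| ≤ |c i| + t η ≤ 1/2`. -/
def S_RUN : Prop := ∀ (N₀ : ℕ) (L : List Gt), Wf N₀ L → ∀ (κ η : ℝ) (c : ℕ → ℝ), 0 ≤ η →
  (∀ k < N₀ + L.length, |c k| ≤ 1 / 4) → (∀ g ∈ L, |c g.2.2.2 - op κ c g| ≤ η) →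
  (L.length : ℝ) * η ≤ 1 / 4 →
  ∃ v : ℕ → ℝ, (∀ k < N₀, v k = c k) ∧ (∀ g ∈ L, Hld κ v g) ∧
    ∀ k < N₀ + L.length, |v k - c k| ≤ L.length * η

/-- **S_BDD.** The values of a run with small inputs are small. Proof: strong induction on `k`;
constants: `|cv κ j| ≤ κ`; mean, opposite: clear; product: `κ * κ ≤ κ`. -/
def S_BDD : Prop := ∀ (N₀ : ℕ) (L : List Gt), Wf N₀ L → ∀ (κ : ℝ) (v : ℕ → ℝ), 0 ≤ κ → κ ≤ 1 →
  (∀ g ∈ L, Hld κ v g) → (∀ k < N₀, |v k| ≤ κ) → ∀ k < N₀ + L.length, |v k| ≤ κ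

/-! ### Vectors -/

/-- **S_VC.** The canonical vectors. Proof: the scalar products: `t = 0`: `(cst, 0, 1) (1, 0, -v k)`;
`t = 1`: `(v i, v j, 1)` with `(1, 0, -v i)`, `(0, 1, -v j)`, `(1/2, 1/2, -v k)`; `t = 2`:
`(v i, v k, 1)` with `(1, 0, -v i)`, `(0, 1, -v k)`, `(1, 1, 0)`; `t = 3`: `(v i, v k, 1)` with
`(1, 0, -v i)`, `(0, 1, -v k)`, `(-v j, 1, 0)`; `t = 4`: `(v i, v i, 1)` with `(1, 0, -v i)`,
`(0, 1, -v i)`, `(1/2, 1/2, -v i)`, `(1, -1, 0)`; others: `(1, v i, 1)` with `(0, 1, -v i)`,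
`(-v i, 1, 0)`. The boxes: compare the codes. -/
def S_VC : Prop := ∀ (γ δ B : ℝ) (v : ℕ → ℝ) (g : Gt),
  ((g.1 ≤ 3 → Hld γ v g) → ∀ c ∈ gset g, dot (rvec γ v g) (cvec δ v c) = 0) ∧
  (g.1 ≤ 5 → (∀ k, |v k| ≤ B) → ∀ l : Fin 3, InBox γ δ B (rsp g l) (rvec γ v g l)) ∧
  ((∀ k, |v k| ≤ B) → ∀ (c : ℕ × ℕ) (l : Fin 3), InBox γ δ B (csp c l) (cvec δ v c l))

/-- **S_VEB.** Almost orthogonal vectors satisfy the gates up to a small error. Proof. For `k < N`
let `a = X (4,k,k,k) 0`, `b = X (4,k,k,k) 1`, `b' = X (5,k,k,k) 1`, `C = Y (0,k) 2`, `D = Y (1,k) 2`,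
`E = Y (2,k) 2`, `M = Y (3,k) 0`; the other coordinates are known. So (`e = Γ / 4`)
`|a + C| ≤ e`, `|b + D| ≤ e`, `|(a + b)/2 + E| ≤ e`, `|a - b| ≤ e` (column `(4,0)`),
`|b' + D| ≤ e`, `|M + b'| ≤ e`. So with `c = a`: `|c + C| ≤ e`, `|c + D| ≤ 2 e`, `|c + E| ≤ 3/2 e`,
`|c + M| ≤ 4 e` (`|c - b| ≤ e`, `|b + D| ≤ e`, `|D + b'| ≤ e`, `|b' + M| ≤ e`).
A gate `g = (t, i, j, k) ∈ L`: `t = 0`: `|cst + C_k| ≤ e`, so the error is `≤ 2 e`. `t = 1`: the row is
`(x, y, 1)` with `|x + C_i| ≤ e`, `|y + D_j| ≤ e`, `|(x + y)/2 + E_k| ≤ e`: so `|x - c_i| ≤ 2 e`,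
`|y - c_j| ≤ 3 e`, the error is `≤ 5/2 e + e + 3/2 e = 5 e`. `t = 2`: `|x - c_i| ≤ 2 e`,
`|y - c_k| ≤ 3 e`, `|x + y| ≤ e`: error `≤ 6 e`. `t = 3`: `|x - c_i| ≤ 2 e`, `|y - c_k| ≤ 3 e`,
`|x M_j + y| ≤ e`: `|c_k - c_i c_j| ≤ |c_k - y| + |y + x M_j| + |x| |M_j + c_j| + |c_j| |x - c_i| ≤
3 e + e + 4 B e + 2 B e`. All are at most `(8 + 8 B) e`. -/
def S_VEB : Prop := ∀ (N : ℕ) (L : List Gt), Bd N L → ∀ (γ δ B Γ : ℝ), 0 ≤ B → 0 ≤ Γ →
  ∀ (X : Gt → Fin 3 → ℝ) (Y : ℕ × ℕ → Fin 3 → ℝ),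
  (∀ g ∈ rws N L, ∀ l : Fin 3, InBox γ δ B (rsp g l) (X g l)) →
  (∀ c ∈ cls N, ∀ l : Fin 3, InBox γ δ B (csp c l) (Y c l)) →
  (∀ g ∈ rws N L, ∀ c ∈ gset g, |dot (X g) (Y c)| ≤ Γ / 4) →
  ∀ g ∈ L, |X (4, g.2.2.2, g.2.2.2, g.2.2.2) 0 - op γ (fun k => X (4, k, k, k) 0) g| ≤
    (2 + 2 * B) * Γ

/-- **S_VEA.** The averages of the two copies. Let `m = (rws N L).length`, `n = (cls1 N).length`,
`kd = knd N (rws N L) (cls1 N)`. Proof. Let `Γ` be the sum over the cells `(a, b)`, `a < m`, `b < n`,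
with `kd a b = 0` of `∑_{s,t<2} |dot (r a s) (w b t)|`. The averages are
`r' a = (r a 0 + r a 1) / 2`, `w' b = (w b 0 + w b 1) / 2` (coordinates); they are in the boxes, and
`4 * dot (r' a) (w' b) = ∑_{s,t} dot (r a s) (w b t)` (bilinearity), so `|dot (r' a) (w' b)| ≤ Γ / 4`
for the gate cells.
(1) For the column `b` with `(cls1 N)[b] = (3, j)`, `j < N` (`b = 4 j + 3`): `|dif (w b) 0| ≤ Γ / 2`.
For the row `a = N + j` is `(5, j, j, j)`, its vectors are `(1, y_s, 1)` and those of the column are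
`(x_t, 1, 0)`; it is a gate cell, so `Γ ≥ ∑_{s,t} |x_t + y_s| ≥ 2 |x_0 - x_1|`.
(2) For every `a < m`, `b < n`: `|dot (dif (r a)) (dif (w b))| ≤ κ Γ`: the known coordinates of `dif`
are `0`: the coordinate `2` of every row is known, the coordinate `1` of every column is known, the
coordinate `0` of the columns is known except for the columns `(3, j)`; and
`|dif (r a) 0| ≤ 2 κ` (unknown coordinates are in `[-κ, κ]`).
(3) The sum over the cells with `kd a b ≠ 0, 2` of `dot (dif ..) (dif ..)` is at most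
`m n κ Γ ≤ Γ / 6`.
(4) The only cell with `kd = 2` is `(N - 1, n - 1)`: it is not a gate cell as `(6, 0)` is in no
`gset`; `N - 1 < m`. Its row is `(4, N-1, N-1, N-1)` and the vectors of its column are `(δ, 0, 0)`: its
term is `2 δ (r (N-1) 0 0 + r (N-1) 1 0) = 4 δ z`, `z = r' (N-1) 0`.
(5) So `0 > Psi ≥ Γ - Γ / 6 + 4 δ z`, and so `z < 0` and `Γ ≤ - 8 δ z`. -/
def S_VEA : Prop := ∀ (N : ℕ) (L : List Gt), 1 ≤ N → ∀ (κ δ : ℝ), 0 < κ → 0 < δ →
  κ * (6 * ((rws N L).length * (cls1 N).length)) ≤ 1 → ∀ (r w : ℕ → ℕ → Fin 3 → ℝ),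
  (∀ a < (rws N L).length, ∀ s < 2, ∀ l : Fin 3, InBox κ δ κ (rcd (rws N L) a l) (r a s l)) →
  (∀ b < (cls1 N).length, ∀ t < 2, ∀ l : Fin 3, InBox κ δ κ (ccd (cls1 N) b l) (w b t l)) →
  Psi (rws N L).length (cls1 N).length (knd N (rws N L) (cls1 N)) r w < 0 →
  ∃ (Γ : ℝ) (r' w' : ℕ → Fin 3 → ℝ), 0 ≤ Γ ∧
    (∀ a < (rws N L).length, ∀ l : Fin 3, InBox κ δ κ (rcd (rws N L) a l) (r' a l)) ∧
    (∀ b < (cls1 N).length, ∀ l : Fin 3, InBox κ δ κ (ccd (cls1 N) b l) (w' b l)) ∧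
    (∀ a < (rws N L).length, ∀ b < (cls1 N).length, isG (rws N L) (cls1 N) a b = true →
      |dot (r' a) (w' b)| ≤ Γ / 4) ∧
    r' (N - 1) 0 < 0 ∧ Γ ≤ - 8 * δ * r' (N - 1) 0

/-- **S_PS1.** The value of `Psi` for equal copies. Proof: the gate terms are `0`; the terms of the
cells with `kd ≠ 0, 2` are `0` as `dif = 0`; the only cell with `kd = 2` is `(N - 1, n - 1)` (it is
not a gate cell, as its column is `(6, 0)`), its term is `4 * dot`. -/
def S_PS1 : Prop := ∀ (N : ℕ) (L : List Gt), 1 ≤ N → ∀ (r w : ℕ → Fin 3 → ℝ),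
  (∀ a < (rws N L).length, ∀ b < (cls1 N).length, isG (rws N L) (cls1 N) a b = true →
    dot (r a) (w b) = 0) →
  Psi (rws N L).length (cls1 N).length (knd N (rws N L) (cls1 N)) (fun a _ => r a)
    (fun b _ => w b) = 4 * dot (r (N - 1)) (w ((cls1 N).length - 1))

/-! ### Matrices of rank at most three -/

/-- **S_RK.** Proof. (→) The column space has dimension at most `3`: there are three vectors of
`Fin M → ℝ` whose span contains all the columns (for instance `B = A * C` by a rank factorization,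
or take a basis of the range of `B.mulVecLin` padded with zeros); `U i l` is the coordinate `i` of
the `l`-th vector, `V j` the coefficients of the column `j`. (←) `B = A * C` with `A` of size
`M × 3`: `Matrix.rank_mul_le_left`, `Matrix.rank_le_width`. -/
def S_RK : Prop := ∀ (M K : ℕ) (B : Matrix (Fin M) (Fin K) ℝ),
  B.rank ≤ 3 ↔ ∃ U V : ℕ → Fin 3 → ℝ, ∀ i j, B i j = dot (U i) (V j)

/-- **S_TB.** The problems for tables. Proof: `(tab M K f).length = M`, `width (tab M K f) = K` as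
`0 < M`, the entries of `mat` are `f i j`; sums and cardinalities over `Fin` against `Finset.range`
(`Finset.sum_range`; for the casts of the types generalize the length and the width); `S_RK` (this
may be assumed as a hypothesis). -/
def S_TB : Prop := ∀ (M K : ℕ) (f : ℕ → ℕ → ℚ) (ε : ℚ), 0 < M →
  (LRA0 (tab M K f, 3, ε) ↔ 0 < ε ∧ ∃ U V : ℕ → Fin 3 → ℝ, (wrong M K f U V : ℝ) < ε) ∧
  (LRA1 (tab M K f, 3, ε) ↔ 0 < ε ∧ ∃ U V : ℕ → Fin 3 → ℝ,
    ∑ i ∈ Finset.range M, ∑ j ∈ Finset.range K, |(f i j : ℝ) - dot (U i) (V j)| < ε)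

/-! ### The case `p = 0` -/

/-- **S_RIG.** The Hilbert matrix has no `4 × 4` submatrix of rank at most `3`. Proof. The four
vectors `V j` in `ℝ³` are linearly dependent: `∑ a_j V j = 0`, `a ≠ 0`. So
`∑_j a_j / (ρ i + ς j + 1) = 0` for every `i`. Multiply by `∏_j (x + ς j + 1)`: the polynomial
`P(x) = ∑_j a_j ∏_{j' ≠ j} (x + ς j' + 1)` has degree at most `3` and the four different zeros `ρ i`: so
`P = 0`; evaluating at `x = - ς j - 1` gives `a_j ∏_{j' ≠ j} (ς j' - ς j) = 0`, so `a_j = 0`. -/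
def S_RIG : Prop := ∀ (ρ ς : Fin 4 → ℕ), Function.Injective ρ → Function.Injective ς →
  ∀ (U V : Fin 4 → Fin 3 → ℝ), ¬ ∀ i j, dot (U i) (V j) = 1 / ((ρ i + ς j + 1 : ℕ) : ℝ)

/-- **S_KST.** Few pairs without a `K_{4,4}`. Proof. For a column `c < b` let `E_c` be the set of the
`r` with `(r, c) ∈ E`. The columns with `|E_c| ≤ 3` contribute at most `3 b`. For the others choose
a subset `f c` of `E_c` with four elements; every set `Q` of four elements of `range a` is `f c` for at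
most three `c` (otherwise `K_{4,4}`), so there are at most `3 * (a choose 4) ≤ 3 a ^ 4` such columns,
which contribute at most `a` each. -/
def S_KST : Prop := ∀ (a b : ℕ) (E : Finset (ℕ × ℕ)), E ⊆ Finset.range a ×ˢ Finset.range b →
  (∀ ρ ς : Fin 4 → ℕ, Function.Injective ρ → Function.Injective ς →
    ¬ ∀ i j, (ρ i, ς j) ∈ E) →
  E.card ≤ 3 * b + 3 * a ^ 5

/-- **S_M0.** The blow-up of a pattern. Let `s = nst m n F`, `a = cp1 s`, `b = cp2 s = a ^ 5`.
Proof. (←) Put `U' i = U (i / a)`, `V' j = V (j / b)`: a wrong entry `(i, j)` has `F (i / a) (j / b)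
= none`, and there are `s a b` such entries (`s` blocks of size `a × b`). (→) Let `U, V` be given. For
an empty cell `(i₀, j₀)` the set `E` of the `(r, c)`, `r < a`, `c < b`, such that the entry
`(a i₀ + r, b j₀ + c)` is right has no `K_{4,4}` by `S_RIG` (use the vectors `U (a i₀ + ρ i)`,
`V (b j₀ + ς j)`), so by `S_KST` it has at most `3 b + 3 a ^ 5 = 6 b` elements: there are at least
`a b - 6 b` wrong entries in the block. As there are at most `s a b` wrong entries in total, there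
are at most `6 s b` wrong entries in the blocks of the other cells. As `6 s b < a b`, there is a
pair `(r, c)` such that for no full cell `(i₀, j₀)` the entry `(a i₀ + r, b j₀ + c)` is wrong (each
wrong entry belongs to one pair). Put `U' i = U (a i + r)`, `V' j = V (b j + c)`. -/
def S_M0 : Prop := ∀ (m n : ℕ) (F : ℕ → ℕ → Option ℚ),
  (∃ U V : ℕ → Fin 3 → ℝ,
    wrong (cp1 (nst m n F) * m) (cp2 (nst m n F) * n) (blow (nst m n F) F) U V ≤
      nst m n F * (cp1 (nst m n F) * cp2 (nst m n F))) ↔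
  ∃ U V : ℕ → Fin 3 → ℝ, ∀ i < m, ∀ j < n, ∀ q, F i j = some q → (q : ℝ) = dot (U i) (V j)

/-- **S_NRM.** The first three rows and columns of the pattern. Here `m`, `n` are arbitrary.
Proof. (→) Let `g_l = U l`, `h_l = V l` for `l < 3`. The identity block: `dot g_l h_l' = δ`, so the
matrix `G` with the rows `g_l` and the matrix `H` with the rows `h_l` satisfy `G Hᵀ = 1`, so
`Hᵀ G = 1`, i.e. `∑_l (dot x h_l) (dot g_l y) = dot x y` for all `x, y`. Put
`r a l = dot (U (3 + a)) h_l`, `w b l = dot g_l (V (3 + b))`; then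
`dot (r a) (w b) = dot (U (3 + a)) (V (3 + b))`, and `r a l` is the entry `(3 + a, l)`, which is
`spq` of the code if this is not `0`; `spq c = spv 1 0 c`. (←) `U i = e_i`, `V i = e_i` for `i < 3`,
`U (3 + a) = r a`, `V (3 + b) = w b`. -/
def S_NRM : Prop := ∀ (m n : ℕ) (rs : List Gt) (cs : List (ℕ × ℕ)),
  (∃ U V : ℕ → Fin 3 → ℝ, ∀ i < 3 + m, ∀ j < 3 + n, ∀ q, cell0 rs cs i j = some q →
    (q : ℝ) = dot (U i) (V j)) ↔
  ∃ r w : ℕ → Fin 3 → ℝ,
    (∀ a < m, ∀ l : Fin 3, Fits 1 0 (rcd rs a l) (r a l)) ∧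
    (∀ b < n, ∀ l : Fin 3, Fits 1 0 (ccd cs b l) (w b l)) ∧
    ∀ a < m, ∀ b < n, isG rs cs a b = true → dot (r a) (w b) = 0

/-! ### The case `p = 1` -/

/-- **S_IX.** The cost when the identity rows and columns are exact. Proof: split
`range (6 + 2 m)` into `range 6` and the pairs `(a, s)`, `i = 6 + 2 a + s`, similarly the columns.
For `i, j < 6` the entry and the scalar product are `R ^ 2` or `0` (equal). For `i < 6`,
`j = 6 + 2 b + t`: `i = 2 l + s'`, the scalar product is `R * V j l`; the sum over `s' < 2` is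
`pen (cc b l) (V j l)`. Similarly for the rows. The rest: `cen`. -/
def S_IX : Prop := ∀ (m n : ℕ) (R κ δ : ℝ) (rc cc kd : ℕ → ℕ → ℕ) (U V : ℕ → Fin 3 → ℝ),
  Exact R U → Exact R V →
  tot m n R κ δ rc cc kd U V = costV m n R κ δ rc cc kd (fun a s => U (6 + 2 * a + s))
    (fun b t => V (6 + 2 * b + t))

/-- **S_E1.** The identity rows and columns may be assumed to be exact. Proof. Let
`μ = m + n + 1`. Let `x i j = |R² [i/2 = j/2] - dot (U i) (V j)|` for `i, j < 6`, `X` their sum. So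
`X ≤ 2 R μ ≤ R² / 5000`. The `3 × 3` matrix `dot (U (2l)) (V (2l'))` is `R² (1 + F)` with the sum of
the `|F l l'|` at most `1/5000`, so it is invertible (strictly diagonally dominant: for instance
`det_ne_zero_of_sum_row_lt_diag`), so the vectors `U 0, U 2, U 4` are a basis. Changing the basis
(`U ↦ U A`, `V ↦ V (A⁻¹)ᵀ`, all scalar products are unchanged) we have `U (2 l) = R e_l`, that is
`V j l * R = dot (U (2l)) (V j)` for all `j`.
(a) For `j < 6`: `|V j l - R [l = j/2]| = x (2l) j / R`. So the sum of these over `j, l` is `≤ X / R`.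
(b) For `i < 6` and `l'`: `dot (U i) (V (2l')) = R * U i l' + dot (U i) η`, with
`|η|_1 ≤ X / R ≤ R / 5000` where `η = V (2l') - R e_{l'}`. With `M_i = max_l |U i l|`:
`R M_i ≤ R² + X + M_i X / R` so `M_i ≤ 2 R`. Then
`|U i l' - R [l' = i/2]| ≤ x i (2l') / R + 2 |η_{l'}|_1`, whose sum over the three odd `i` and `l'` is
at most `X / R + 6 X / R` (and for even `i` it is `0`).
(c) The normal columns `j ≥ 6`, `j < 6 + 2 n`: the entry at `(2l, j)` has absolute value at most `R`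
and the scalar product is `R * V j l`; so `R |V j l| ≤ R + cost (2l, j)`; the sum over `l` and the
`2 n` columns: `R ∑ |V j|_1 ≤ 6 n R + 2 R μ`, so `∑ |V j|_1 ≤ 8 μ`.
(d) The normal rows: `dot (U i) (V (2l)) = R * U i l + dot (U i) η_l`: `R |U i l| ≤ R + cost (i, 2l) +
|U i|_1 R / 5000`; the sum over `l`: `R |U i|_1 (1 - 3/5000) ≤ 3 R + ∑_l cost (i, 2l)`; the sum over
the `2 m` rows: `∑ |U i|_1 ≤ (6 m + 2 μ) / 0.9994 ≤ 9 μ`.
(e) Let `U', V'` be equal to `U, V` for the normal rows and columns and exact for the first six.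
The cost of the `6 × 6` block decreases by `X`. The cost of the identity rows × normal columns
changes by at most `∑_{i<6} |U i - U' i|_1 * ∑_j |V j|_1 ≤ (7 X / R) * 8 μ`, that of the normal rows
× identity columns by at most `(X / R) * 9 μ`. The sum is `65 μ X / R ≤ X`, as `R ≥ 65 μ`. -/
def S_E1 : Prop := ∀ (m n : ℕ) (R κ δ : ℝ) (rc cc kd : ℕ → ℕ → ℕ) (U V : ℕ → Fin 3 → ℝ),
  (10 : ℝ) ^ 4 * ((m : ℝ) + n + 1) ^ 2 ≤ R → 0 ≤ κ → κ ≤ 1 / 8 → 0 ≤ δ → δ ≤ 1 →
  tot m n R κ δ rc cc kd U V ≤ 2 * R * ((m : ℝ) + n + 1) →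
  ∃ U' V' : ℕ → Fin 3 → ℝ, Exact R U' ∧ Exact R V' ∧
    tot m n R κ δ rc cc kd U' V' ≤ tot m n R κ δ rc cc kd U V ∧
    ∑ a ∈ Finset.range m, ∑ s ∈ Finset.range 2, ∑ l : Fin 3, |U' (6 + 2 * a + s) l| ≤
      100 * ((m : ℝ) + n + 1) ∧
    ∑ b ∈ Finset.range n, ∑ t ∈ Finset.range 2, ∑ l : Fin 3, |V' (6 + 2 * b + t) l| ≤
      100 * ((m : ℝ) + n + 1)

/-- **S_E2.** The projection to the boxes. Proof. Let `P c x` be `spv κ δ c` for `c ≠ 0` and
`max (-κ) (min κ x)` for `c = 0`. Then `pen c x = pen c (P c x) + 2 R |x - P c x|` (for `c = 0`: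
`pen 0 x = R (|x + κ| + |x - κ|)` is `2 R κ` in `[-κ, κ]` and `2 R |x|` outside). First project the
rows: the penalties decrease by `2 R D`, `D = ∑_{a,s,l} |r a s l - r' a s l|`, and the other costs
change by at most `∑ |dot (r a s - r' a s) (w b t)| ≤ D * ∑_{b,t,l} |w b t l| ≤ 100 μ D ≤ 2 R D`
(`μ = m + n + 1`). Then project the columns: now `|r' a s l| ≤ 1` for `a < m`, `s < 2`, so
`∑ |r' a s l| ≤ 6 m ≤ 2 R`. -/
def S_E2 : Prop := ∀ (m n : ℕ) (R κ δ : ℝ) (rc cc kd : ℕ → ℕ → ℕ) (r w : ℕ → ℕ → Fin 3 → ℝ),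
  (10 : ℝ) ^ 4 * ((m : ℝ) + n + 1) ^ 2 ≤ R → 0 ≤ κ → κ ≤ 1 / 8 → 0 ≤ δ → δ ≤ 1 →
  ∑ b ∈ Finset.range n, ∑ t ∈ Finset.range 2, ∑ l : Fin 3, |w b t l| ≤
    100 * ((m : ℝ) + n + 1) →
  ∃ r' w' : ℕ → ℕ → Fin 3 → ℝ,
    (∀ a < m, ∀ s < 2, ∀ l : Fin 3, InBox κ δ κ (rc a l) (r' a s l)) ∧
    (∀ b < n, ∀ t < 2, ∀ l : Fin 3, InBox κ δ κ (cc b l) (w' b t l)) ∧
    costV m n R κ δ rc cc kd r' w' ≤ costV m n R κ δ rc cc kd r w

/-- **S_E3.** The cost in the boxes. Proof. `pen c x` is `0` for known coordinates and `2 R κ` for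
unknown ones in `[-κ, κ]`; there are two copies. All coordinates of the vectors are at most `1` in
absolute value, so `|dot| ≤ 3`. A gate cell: `∑ |dot|`. A cell of the kind `2`:
`∑_{s,t} |-3 - dot| = 12 + ∑ dot`. Another cell: `∑_{s,t} |± 3 - dot| = 12 - ∑ ± dot =
12 - dot (dif (r a)) (dif (w b))`. The numbers of the unknown coordinates and of the cells that are
not gate cells are `nun m rc`, `nun n cc`, `nng m n kd`. -/
def S_E3 : Prop := ∀ (m n : ℕ) (R κ δ : ℝ) (rc cc kd : ℕ → ℕ → ℕ) (r w : ℕ → ℕ → Fin 3 → ℝ),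
  0 ≤ R → 0 ≤ κ → κ ≤ 1 / 8 → 0 ≤ δ → δ ≤ 1 →
  (∀ a < m, ∀ s < 2, ∀ l : Fin 3, InBox κ δ κ (rc a l) (r a s l)) →
  (∀ b < n, ∀ t < 2, ∀ l : Fin 3, InBox κ δ κ (cc b l) (w b t l)) →
  costV m n R κ δ rc cc kd r w =
    4 * R * κ * ((nun m rc + nun n cc : ℕ) : ℝ) + 12 * (nng m n kd : ℝ) + Psi m n kd r w

/-- **S_EZ.** The entries. Proof: `R / K = 16 D W`, `R / (8 K) = 2 D W`, `R / D = 16 K W`,
`R / 2 = 8 K D W`. -/
def S_EZ : Prop := ∀ (K D W : ℕ) (rc cc kd : ℕ → ℕ → ℕ) (i j : ℕ), 0 < K → 0 < D →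
  ((ent1z K D W rc cc kd i j : ℤ) : ℝ) =
    ent1 (16 * K * D * W) (1 / K) (1 / D) rc cc kd i j

/-! ### Polynomial time -/

/-- **S_PG.** The gates are computable in polynomial time. The gates with `match` are rewritten with
the code `c.code` of a constraint (see `bcon_eq`, `poly_bcon` in ER/Bounded); `ri` is an index
(for instance the number of the elements of the longest initial segment without the element; or a
fold); the numbers of the variables are unary. -/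
def S_PG : Prop :=
  Poly gates0 ∧ UPoly num0 ∧ Poly (fun S => gates1 (bsys S)) ∧ UPoly (fun S => out1 (bsys S) + 1)

/-- **S_PR.** The rows, the columns and the codes are computable in polynomial time. -/
def S_PR : Prop :=
  (∀ {α : Type} [TEnc α] (N : α → ℕ) (L : α → List Gt), UPoly N → Poly L →
    Poly (fun a => rws (N a) (L a))) ∧
  (∀ {α : Type} [TEnc α] (N : α → ℕ), UPoly N →
    Poly (fun a => cls (N a)) ∧ Poly (fun a => cls1 (N a))) ∧
  (∀ {α : Type} [TEnc α] (N : α → ℕ) (rs : α → List Gt) (cs : α → List (ℕ × ℕ)) (i j : α → ℕ),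
    Poly N → Poly rs → Poly cs → Poly i → Poly j →
    Poly (fun a => rcd (rs a) (i a) (j a)) ∧ Poly (fun a => ccd (cs a) (i a) (j a)) ∧
    Poly (fun a => knd (N a) (rs a) (cs a) (i a) (j a)) ∧
    Poly (fun a => cell0 (rs a) (cs a) (i a) (j a)))

/-- **S_PI0.** The instances for `p = 0` are computable in polynomial time. A rational number is
coded by its numerator and its denominator; those of `1 / (k + 1)` are `1` and `k + 1`. -/
def S_PI0 : Prop := ∀ {α : Type} [TEnc α] (m n : α → ℕ) (F : α → ℕ → ℕ → Option ℚ),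
  UPoly m → UPoly n → Poly (fun p : α × ℕ × ℕ => F p.1 p.2.1 p.2.2) →
  Poly (fun a => inst0 (m a) (n a) (F a))

/-- **S_PI1.** The instances for `p = 1` are computable in polynomial time. -/
def S_PI1 : Prop := ∀ {α : Type} [TEnc α] (m n K D W : α → ℕ) (rc cc kd : α → ℕ → ℕ → ℕ),
  UPoly m → UPoly n → Poly K → Poly D → Poly W →
  Poly (fun p : α × ℕ × ℕ => rc p.1 p.2.1 p.2.2) →
  Poly (fun p : α × ℕ × ℕ => cc p.1 p.2.1 p.2.2) →
  Poly (fun p : α × ℕ × ℕ => kd p.1 p.2.1 p.2.2) →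
  Poly (fun a => inst1 (m a) (n a) (K a) (D a) (W a) (rc a) (cc a) (kd a))

end Pool.Agent.Q230.LR
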